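import Pool.Agent.H84.TE.Defs

/-!
# Module MetK: reduction to a metrizable compact space (100 lines)

`sep_of_dual`. `t n = denseSeq` of the dual; `x n` with `‖x n‖ ≤ 1`, `|t n (x n)| ≥ ‖t n‖/2` (exists: otherwise `‖t n‖ ≤ ‖t n‖/2`; if `t n = 0` take `0`). The closure of the span of the `x n` is a separable closed subspace (`IsSeparable.span`, `IsSeparable.closure`, countable range). It is everything: otherwise there is `t ≠ 0`, `t = 0` on it
(`Submodule.exists_le_ker_of_notMem`-type, `geometric_hahn_banach_closed_point`, or `exists_dual_vector` in the quotient), and `t n` with `‖t - t n‖ ≤ ‖t‖/8`: `‖t n‖/2 ≤ |t n (x n)| = |(t n - t)(x n)| ≤ ‖t‖/8`, so `‖t‖ ≤ ‖t n‖ + ‖t‖/8 ≤ ‖t‖/2`, contradiction.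
`met_red`. `φ : K → WeakDual ℝ X`, `φ y x = J x y`, continuous (`WeakDual.continuous_of_continuous_eval`). `K₁ = range φ` is compact (`isCompact_range`), so metrizable (`WeakDual.metrizable_of_isCompact`). `J₁ x = (a ↦ a x)` on `K₁` (continuous: `WeakDual.eval_continuous`), `|a x| ≤ ‖J x‖`: `‖J₁ x‖ ≤ ‖J x‖ ≤ ‖J‖ ‖x‖`.
`P₁ f = P (f ∘ φ)` (`ContinuousMap.compRightContinuousMap` or `ContinuousLinearMap` by hand, norm `≤ ‖P‖`), `(J₁ x) ∘ φ = J x`, so `P₁ (J₁ x) = P (J x) = x`.
-/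

set_option autoImplicit false

open Set Filter Topology Pool.Agent.H84.TC

namespace Pool.Agent.H84.TE

variable {X : Type} [NormedAddCommGroup X] [NormedSpace ℝ X]

private lemma metK_hb (S : Submodule ℝ X) (hS : IsClosed (S : Set X)) {x : X} (hx : x ∉ S) :
    ∃ t : StrongDual ℝ X, t ≠ 0 ∧ ∀ y ∈ S, t y = 0 := by
  obtain ⟨f, u, h1, h2⟩ := geometric_hahn_banach_closed_point S.convex hS hx
  have h0 : (0 : ℝ) < u := by simpa using h1 0 S.zero_mem
  refine ⟨f, fun hf => ?_, fun y hy => ?_⟩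
  · rw [hf] at h2
    simp only [zero_apply] at h2
    linarith
  · by_contra hne
    have h3 := h1 ((u / f y) • y) (S.smul_mem _ hy)
    rw [map_smul, smul_eq_mul, div_mul_cancel₀ _ hne] at h3
    exact lt_irrefl _ h3

private lemma metK_half (t : StrongDual ℝ X) : ∃ x : X, ‖x‖ ≤ 1 ∧ ‖t‖ / 2 ≤ |t x| := by
  rcases eq_or_ne t 0 with rfl | ht
  · exact ⟨0, by simp, by simp⟩
  · by_contra hcon
    push Not at hcon
    have hp : 0 < ‖t‖ := norm_pos_iff.2 ht
    have h := ContinuousLinearMap.opNorm_le_of_unit_norm (f := t) (C := ‖t‖ / 2) (by positivity)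
      (fun x hx => by
        rw [Real.norm_eq_abs]
        exact (hcon x hx.le).le)
    linarith

theorem sep_of_dual [TopologicalSpace.SeparableSpace (StrongDual ℝ X)] :
    TopologicalSpace.SeparableSpace X := by
  classical
  have ht : DenseRange (TopologicalSpace.denseSeq (StrongDual ℝ X)) :=
    TopologicalSpace.denseRange_denseSeq _
  generalize TopologicalSpace.denseSeq (StrongDual ℝ X) = t at ht
  choose x hx1 hx2 using fun n => metK_half (t n)
  have hS : IsClosed ((Submodule.span ℝ (Set.range x)).topologicalClosure : Set X) :=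
    Submodule.isClosed_topologicalClosure _
  have hsep : TopologicalSpace.IsSeparable
      ((Submodule.span ℝ (Set.range x)).topologicalClosure : Set X) := by
    rw [Submodule.topologicalClosure_coe]
    exact ((Set.countable_range x).isSeparable.span (R := ℝ)).closure
  have htop : ((Submodule.span ℝ (Set.range x)).topologicalClosure : Set X) = Set.univ := by
    refine Set.eq_univ_of_forall fun y => ?_
    by_contra hy
    obtain ⟨f, hf0, hf⟩ := metK_hb _ hS hy
    have hfp : 0 < ‖f‖ := norm_pos_iff.2 hf0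
    obtain ⟨n, hn⟩ := ht.exists_dist_lt f (show (0 : ℝ) < ‖f‖ / 8 by positivity)
    rw [dist_eq_norm] at hn
    have h1 : f (x n) = 0 :=
      hf _ (Submodule.le_topologicalClosure _ (Submodule.subset_span ⟨n, rfl⟩))
    have h2 : |t n (x n)| ≤ ‖f - t n‖ := by
      have h3 : t n (x n) = -((f - t n) (x n)) := by
        rw [sub_apply, h1]
        ring
      rw [h3, abs_neg, ← Real.norm_eq_abs]
      refine ((f - t n).le_opNorm _).trans ?_
      calc ‖f - t n‖ * ‖x n‖ ≤ ‖f - t n‖ * 1 :=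
            mul_le_mul_of_nonneg_left (hx1 n) (norm_nonneg _)
        _ = ‖f - t n‖ := mul_one _
    have h4 : ‖f‖ ≤ ‖t n‖ + ‖f - t n‖ := by
      have h5 := norm_add_le (t n) (f - t n)
      rwa [add_sub_cancel] at h5
    have h6 := hx2 n
    linarith
  rw [htop] at hsep
  exact TopologicalSpace.isSeparable_univ_iff.1 hsep

theorem met_red [TopologicalSpace.SeparableSpace X] {K : Type} [TopologicalSpace K] [CompactSpace K]
    (J : X →L[ℝ] C(K, ℝ)) (P : C(K, ℝ) →L[ℝ] X) (hP : ∀ x, P (J x) = x) :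
    ∃ (K₁ : Type) (_ : TopologicalSpace K₁) (_ : CompactSpace K₁)
      (_ : TopologicalSpace.MetrizableSpace K₁) (J₁ : X →L[ℝ] C(K₁, ℝ)) (P₁ : C(K₁, ℝ) →L[ℝ] X),
      (∀ x, P₁ (J₁ x) = x) ∧ ‖J₁‖ ≤ ‖J‖ ∧ ‖P₁‖ ≤ ‖P‖ := by
  classical
  obtain ⟨φ, hφ⟩ : ∃ φ : K → WeakDual ℝ X, ∀ y x, φ y x = J x y :=
    ⟨fun y => StrongDual.toWeakDual ((ContinuousMap.evalCLM ℝ y).comp J), fun y x => rfl⟩
  have hc : Continuous φ := by
    refine WeakDual.continuous_of_continuous_eval fun x => ?_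
    simp only [hφ]
    exact (J x).continuous
  have hK : IsCompact (Set.range φ) := isCompact_range hc
  have hKc : CompactSpace (Set.range φ) := isCompact_iff_compactSpace.1 hK
  have hm : TopologicalSpace.MetrizableSpace (Set.range φ) :=
    WeakDual.metrizable_of_isCompact ℝ X (Set.range φ) hK
  have hev : ∀ x : X, Continuous fun a : Set.range φ => (a : WeakDual ℝ X) x := fun x =>
    (WeakDual.eval_continuous x).comp continuous_subtype_val
  let J₀ : X →ₗ[ℝ] C(Set.range φ, ℝ) :=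
    { toFun := fun x => ⟨fun a => (a : WeakDual ℝ X) x, hev x⟩
      map_add' := fun x y => by
        ext a
        exact map_add (a : WeakDual ℝ X) x y
      map_smul' := fun c x => by
        ext a
        exact map_smul (a : WeakDual ℝ X) c x }
  have hJ₀ : ∀ x, ‖J₀ x‖ ≤ ‖J‖ * ‖x‖ := by
    intro x
    rw [ContinuousMap.norm_le _ (by positivity)]
    rintro ⟨a, y, rfl⟩
    have h1 : J₀ x ⟨φ y, ⟨y, rfl⟩⟩ = J x y := hφ y x
    rw [h1]
    exact ((J x).norm_coe_le_norm y).trans (J.le_opNorm x)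
  let ψ : C(K, Set.range φ) := ⟨fun y => ⟨φ y, ⟨y, rfl⟩⟩, hc.subtype_mk _⟩
  let C₀ : C(Set.range φ, ℝ) →ₗ[ℝ] C(K, ℝ) :=
    { toFun := fun f => f.comp ψ
      map_add' := fun f g => rfl
      map_smul' := fun c f => rfl }
  have hC₀ : ∀ f, ‖C₀ f‖ ≤ 1 * ‖f‖ := by
    intro f
    rw [one_mul, ContinuousMap.norm_le _ (norm_nonneg _)]
    intro y
    exact f.norm_coe_le_norm (ψ y)
  refine ⟨Set.range φ, inferInstance, hKc, hm, J₀.mkContinuous ‖J‖ hJ₀,
    P.comp (C₀.mkContinuous 1 hC₀), fun x => ?_, ?_, ?_⟩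
  · have h1 : C₀ (J₀ x) = J x := by
      ext y
      exact hφ y x
    calc (P.comp (C₀.mkContinuous 1 hC₀)) (J₀.mkContinuous ‖J‖ hJ₀ x) = P (C₀ (J₀ x)) := rfl
      _ = x := by rw [h1, hP]
  · exact LinearMap.mkContinuous_norm_le J₀ J.opNorm_nonneg hJ₀
  · refine (ContinuousLinearMap.opNorm_comp_le _ _).trans ?_
    calc ‖P‖ * ‖C₀.mkContinuous 1 hC₀‖ ≤ ‖P‖ * 1 :=
          mul_le_mul_of_nonneg_left (LinearMap.mkContinuous_norm_le C₀ zero_le_one hC₀)
            P.opNorm_nonneg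
      _ = ‖P‖ := mul_one _

end Pool.Agent.H84.TE
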