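import Pool.Agent.H84.TC.Sml
import Pool.Agent.H84.TC.Sup

/-!
# Small dual balls: definitions of the analytic part (MP_6aa5e3_an, Q1)

THEOREM. `X` complemented in `C(K₀)` (`P J = id`), `X*` separable, the unit ball of `X*` in the least family of subsets of `X*` which contains the points and is closed under subsets, hulls `Hull D`, approximation and weak* limits of sequences of sets. Then `X` embeds into `C(L)`, `L` countable compact, with
the constant `‖J‖ ‖P‖ + ε`. (The geometric part, Pool/Agent/H75/SG, shows that the family is closed under extensions (three spaces), `c₀`-sums, and contains the dual balls of the subspaces of `C(countable)`.)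

`Sys2`: a system (Pool/Agent/H84/TC/Defs.lean) whose set of points is totally bounded for the distance `d`. `Con S E ε C Y₀ F` (the definition is due to helper75): for every `h : K → [-1,1]` with `|h y - h z| ≤ δ + w d y z` on `E` there is a `w`-Lipschitz `g : K → [-1,1]`, close to `h` on the finite set `Y₀`, with
`|L t (h - g)| ≤ ε (1 + w) + C δ` for ALL `t ∈ F`. It is linear in `t`, so hulls are free. `Gd`: bounded, and for all `ε`, `Y₀` there are a small relation `E` and `C`.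
-/

set_option autoImplicit false

open Set Filter Topology Pool.Agent.H84.TC

namespace Pool.Agent.H84.TE

/-- a system whose set of points is totally bounded for the distance -/
structure Sys2 (X : Type) [NormedAddCommGroup X] [NormedSpace ℝ X] (K : Type) extends Sys X K where
  net : ∀ ρ > 0, ∃ Z : Set K, Z.Finite ∧ ∀ y, ∃ z ∈ Z, N (Φ y - Φ z) ≤ ρ

variable {X : Type} [NormedAddCommGroup X] [NormedSpace ℝ X] {K : Type}

/-- uniform control of a set `F` of functionals -/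
def Con (S : Sys2 X K) (E : K → K → Prop) (ε C : ℝ) (Y₀ : Set K) (F : Set (StrongDual ℝ X)) : Prop :=
  ∀ h : K → ℝ, (∀ y, |h y| ≤ 1) → ∀ δ w : ℝ, 0 ≤ δ → 0 ≤ w →
    (∀ y z, E y z → |h y - h z| ≤ δ + w * S.d y z) →
    ∃ g : K → ℝ, (∀ y, |g y| ≤ 1) ∧ (∀ y z, |g y - g z| ≤ w * S.d y z) ∧
      (∀ y ∈ Y₀, |h y - g y| ≤ 2 * δ + ε * (1 + w)) ∧
      ∀ t ∈ F, |S.L t (fun y => h y - g y)| ≤ ε * (1 + w) + C * δ

/-- good sets of functionals -/
def Gd (S : Sys2 X K) (F : Set (StrongDual ℝ X)) : Prop :=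
  (∃ r : ℝ, ∀ t ∈ F, ‖t‖ ≤ r) ∧ ∀ ε > 0, ∀ Y₀ : Set K, Y₀.Finite →
    ∃ E, Small S.toSys E ∧ ∃ C : ℝ, 0 ≤ C ∧ Con S E ε C Y₀ F

/-- the hull: every continuous functional on the dual which is at most `c` on `F` is at most `D c` -/
def Hull (D : ℝ) (F : Set (StrongDual ℝ X)) : Set (StrongDual ℝ X) :=
  {t | ∀ (Λ : StrongDual ℝ X →L[ℝ] ℝ) (c : ℝ), 0 ≤ c → (∀ f ∈ F, |Λ f| ≤ c) → |Λ t| ≤ D * c}

lemma Con.mono {S : Sys2 X K} {E E' : K → K → Prop} {ε ε' C C' : ℝ} {Y Y' : Set K}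
    {F F' : Set (StrongDual ℝ X)} (h : Con S E ε C Y F) (hE : ∀ y z, E y z → E' y z) (hε : ε ≤ ε')
    (hC : C ≤ C') (hY : Y' ⊆ Y) (hF : F' ⊆ F) : Con S E' ε' C' Y' F' := by
  intro g hg δ w hδ hw hh
  obtain ⟨k, h1, h2, h3, h4⟩ := h g hg δ w hδ hw fun y z hyz => hh y z (hE y z hyz)
  have h5 : ε * (1 + w) ≤ ε' * (1 + w) := mul_le_mul_of_nonneg_right hε (by linarith)
  have h6 : C * δ ≤ C' * δ := mul_le_mul_of_nonneg_right hC hδ
  exact ⟨k, h1, h2, fun y hy => (h3 y (hY hy)).trans (by linarith),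
    fun t ht => (h4 t (hF ht)).trans (by linarith)⟩

lemma Gd.mono {S : Sys2 X K} {F G : Set (StrongDual ℝ X)} (h : Gd S F) (hG : G ⊆ F) : Gd S G := by
  obtain ⟨⟨r, hr⟩, h2⟩ := h
  refine ⟨⟨r, fun t ht => hr t (hG ht)⟩, fun ε hε Y₀ hY => ?_⟩
  obtain ⟨E, h3, C, h4, h5⟩ := h2 ε hε Y₀ hY
  exact ⟨E, h3, C, h4, h5.mono (fun _ _ h => h) le_rfl le_rfl (subset_refl _) hG⟩

/-- for functions bounded by `1`, the difference is bounded by `2` -/
lemma bd_diff {h g : K → ℝ} (hh : ∀ y, |h y| ≤ 1) (hg : ∀ y, |g y| ≤ 1) :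
    Bd (fun y => h y - g y) :=
  ⟨2, fun y => (abs_sub _ _).trans (by linarith [hh y, hg y])⟩

end Pool.Agent.H84.TE
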