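import Pool.Agent.H84.TE.Defs

/-!
# Module EndE: the norming set (110 lines; the proof of Pool/Agent/H84/TC/EndM.lean `end_main` with small changes)

PROOF. `ε₁ = θ/4`. `hG` with `ε₁`, `Y₀ = ∅`: `E` small, `C`. `c = ε₁/(C+1)`, `J c ≥ 2`. `small_pow` with `θ`: the set `A₁`; `A' = {a ∈ A₁ | ‖a‖ ≤ 2 + θ}` (`cc_cut_norm`). Let `x ≠ 0`, `u = x/‖x‖`, `g₁ y = Φ y u`, `M' = M/‖x‖ + θ`. `sup_conv` with `w = 0`, `M'`: `H`. Let `‖t‖ ≤ 1`. `Con` for `H`, `δ = c`, `w = 0` gives a `0`-Lipschitz, i.e. constant `g`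
(if `K` is nonempty: `g = fun _ => g y₀`), so `L t g = 0` (`Sys.cst`) and `|L t H| = |L t (H - g)| ≤ ε₁ + C c ≤ 2 ε₁ = θ/2`. The rest is word for word as in `end_main` (`osc`, `ev`, Hahn-Banach).
-/

set_option autoImplicit false

open Set Filter Topology Pool.Agent.H84.TC

namespace Pool.Agent.H84.TE

variable {X : Type} [NormedAddCommGroup X] [NormedSpace ℝ X] {K : Type}

private lemma EndE_cst (S : Sys X K) (t : StrongDual ℝ X) {g : K → ℝ} (hg : ∀ y z, g y = g z) :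
    S.L t g = 0 := by
  rcases isEmpty_or_nonempty K with hK | ⟨⟨y₀⟩⟩
  · have e : g = fun _ => 0 := funext fun y => (hK.false y).elim
    rw [e]
    exact S.cst t 0
  · have e : g = fun _ => g y₀ := funext fun y => hg y y₀
    rw [e]
    exact S.cst t (g y₀)

theorem end_mainE (S : Sys2 X K) (hG : Gd S {t | ‖t‖ ≤ 1}) {θ : ℝ} (hθ : 0 < θ) :
    ∃ A' : Set (StrongDual ℝ X), CC A' ∧ (∀ a ∈ A', ‖a‖ ≤ 2 + θ) ∧
      ∀ (x : X) (M : ℝ), 0 ≤ M → (∀ a ∈ A', |a x| ≤ M) → (1 - θ) * ‖x‖ ≤ S.q / 2 * (M + θ * ‖x‖) := by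
  obtain ⟨ε₁, hε₁0, hε₁1⟩ : ∃ ε₁ : ℝ, 0 < ε₁ ∧ 2 * ε₁ ≤ θ / 2 :=
    ⟨θ / 4, by positivity, by linarith⟩
  obtain ⟨E, hE, C, hC, hctrl⟩ := hG.2 ε₁ hε₁0 ∅ Set.finite_empty
  obtain ⟨c, hc0, hc1⟩ : ∃ c : ℝ, 0 < c ∧ C * c ≤ ε₁ := by
    refine ⟨ε₁ / (C + 1), by positivity, ?_⟩
    rw [mul_div_assoc', div_le_iff₀ (by linarith)]
    nlinarith
  obtain ⟨J, hJ⟩ : ∃ J : ℕ, 2 ≤ J * c := by
    obtain ⟨J, hJ⟩ := exists_nat_ge (2 / c)
    exact ⟨J, (div_le_iff₀ hc0).1 hJ⟩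
  obtain ⟨A₁, hA₁, h₁⟩ := (small_pow hE J).2 θ hθ
  refine ⟨{a | a ∈ A₁ ∧ ‖a‖ ≤ 2 + θ}, cc_cut_norm hA₁ (2 + θ), fun a ha => ha.2, ?_⟩
  intro x M hM hx
  have hq := S.hq
  rcases eq_or_ne x 0 with rfl | hx0
  · rw [norm_zero, mul_zero, mul_zero, add_zero]
    positivity
  have hn : 0 < ‖x‖ := norm_pos_iff.2 hx0
  obtain ⟨u, hu⟩ : ∃ u : X, u = ‖x‖⁻¹ • x := ⟨_, rfl⟩
  have hu1 : ‖u‖ = 1 := by
    rw [hu, norm_smul, norm_inv, norm_norm, inv_mul_cancel₀ hn.ne']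
  have hg : ∀ y, |S.Φ y u| ≤ 1 := by
    intro y
    have h := (S.Φ y).le_opNorm u
    rw [hu1, mul_one, Real.norm_eq_abs] at h
    exact h.trans (S.hΦ y)
  have hM' : 0 ≤ M / ‖x‖ + θ := by positivity
  have hp : ∀ y z, Pow S.toSys E J y z →
      S.Φ z u ≤ S.Φ y u + (M / ‖x‖ + θ) + 0 * S.toSys.d y z := by
    intro y z hyz
    obtain ⟨a, ha, hau⟩ := h₁ y z hyz
    have h2 : ‖a‖ ≤ 2 + θ := by
      have e : a = (S.Φ y - S.Φ z) - (S.Φ y - S.Φ z - a) := by abel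
      have h3 := norm_sub_le (S.Φ y - S.Φ z) (S.Φ y - S.Φ z - a)
      rw [← e] at h3
      have h4 := norm_sub_le (S.Φ y) (S.Φ z)
      have h5 := S.hΦ y
      have h6 := S.hΦ z
      linarith
    have h3 := hx a ⟨ha, h2⟩
    have h4 : |a u| ≤ M / ‖x‖ := by
      rw [hu, map_smul, smul_eq_mul, abs_mul, abs_of_pos (inv_pos.2 hn), div_eq_inv_mul]
      exact mul_le_mul_of_nonneg_left h3 (inv_pos.2 hn).le
    have h5 : |(S.Φ y - S.Φ z - a) u| ≤ θ := by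
      have h := (S.Φ y - S.Φ z - a).le_opNorm u
      rw [hu1, mul_one, Real.norm_eq_abs] at h
      exact h.trans hau
    have h6 : (S.Φ y - S.Φ z - a) u = S.Φ y u - S.Φ z u - a u := by
      rw [sub_apply, sub_apply]
    rw [h6] at h5
    have h7 := (abs_le.1 h4).1
    have h8 := (abs_le.1 h5).1
    linarith
  obtain ⟨H, hH1, hH2, hH3, hH4⟩ := sup_conv S.toSys hE.1 hg hc0 (le_refl 0) hM' hJ hp
  have hbH : Bd H := ⟨1, hH1⟩
  have hbg : Bd (fun y => S.Φ y u) := ⟨1, hg⟩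
  have hu0 : ‖u‖ ≠ 0 := by
    rw [hu1]
    exact one_ne_zero
  obtain ⟨t, ht1, htu⟩ := exists_dual_vector ℝ u hu0
  obtain ⟨k, hk1, hk2, -, hk4⟩ := hctrl H hH1 c 0 hc0.le (le_refl 0) hH4
  have hb : |S.L t H| ≤ θ / 2 := by
    have h1 := hk4 t ht1.le
    have hbk : Bd k := ⟨1, hk1⟩
    have h2 : S.L t k = 0 := by
      refine EndE_cst S.toSys t fun y z => ?_
      have h3 := hk2 y z
      rw [zero_mul] at h3
      exact sub_eq_zero.1 (abs_nonpos_iff.1 h3)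
    rw [S.toSys.sub_r hbH hbk, h2, sub_zero] at h1
    linarith
  have hc2 := S.toSys.osc (t := t) (g := fun y => H y - S.Φ y u) hM'
    (fun y => sub_nonneg.2 (hH2 y)) (fun y => by linarith [hH3 y])
  rw [S.toSys.sub_r hbH hbg, S.ev, ht1, htu, hu1] at hc2
  have h9 := (abs_le.1 hb).2
  have h10 := (abs_le.1 hc2).1
  have h11 : 1 ≤ θ / 2 + S.q * 1 / 2 * (M / ‖x‖ + θ) := by
    norm_num at h10 ⊢
    linarith
  have h12 := mul_le_mul_of_nonneg_right h11 hn.le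
  have h13 : (θ / 2 + S.q * 1 / 2 * (M / ‖x‖ + θ)) * ‖x‖ =
      θ / 2 * ‖x‖ + S.q / 2 * (M + θ * ‖x‖) := by
    field_simp
  rw [h13] at h12
  have h14 : 0 < θ * ‖x‖ := by positivity
  linarith

end Pool.Agent.H84.TE
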