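import Pool.Agent.H84.TE.Defs

/-!
# Module HulE: hulls and approximation (90 lines)

`gd_hull`. `D' = max D 1`. For `h`, `g` bounded by `1` the map `Λ t = L t (h - g)` is a continuous linear functional on the dual (`LinearMap.mkContinuous`, `add_l`, `smul_l`, `bd` with `2`). If `|Λ f| ≤ c = ε'(1+w) + C δ` on `F` then `|Λ t| ≤ D c ≤ D' c` on the hull. So the control of `F` with `ε' = ε/D'` (`≤ ε`) gives the control of `Hull D F`
with `ε` and the constant `D' C`. Bounded: if `‖f‖ ≤ r` on `F` (`r ≥ 0`) then for `t ∈ Hull D F`, `x : X`: the evaluation at `x` (`|f x| ≤ r ‖x‖`) gives `|t x| ≤ D' r ‖x‖`, so `‖t‖ ≤ D' r`.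
`gd_approx`. Let `ε`, `Y₀` be given, `ρ = min 1 (ε / (4 (q + 1)))`, `G` for `ρ`, control of `G` with `ε/2`. For `f ∈ F`, `a ∈ G`, `‖f - a‖ ≤ ρ`: `|L f (h - g)| ≤ |L a (h - g)| + |L (f - a) (h - g)| ≤ (ε/2)(1+w) + C δ + q ρ 2 ≤ ε (1+w) + C δ`. Bounded: `r + 1`.
-/

set_option autoImplicit false

open Set Filter Topology Pool.Agent.H84.TC

namespace Pool.Agent.H84.TE

variable {X : Type} [NormedAddCommGroup X] [NormedSpace ℝ X] {K : Type}

/-- the continuous functional `t ↦ L t (h - g)` on the dual -/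
private noncomputable def HulE_fun (S : Sys2 X K) (k : K → ℝ) (b : ℝ) (hb : 0 ≤ b) (hk : ∀ y, |k y| ≤ b) :
    StrongDual ℝ X →L[ℝ] ℝ :=
  LinearMap.mkContinuous
    { toFun := fun t => S.L t k
      map_add' := fun s t => S.add_l s t k ⟨b, hk⟩
      map_smul' := fun c t => S.smul_l c t k ⟨b, hk⟩ } (S.q * b) (fun t => by
        show ‖S.L t k‖ ≤ S.q * b * ‖t‖
        rw [Real.norm_eq_abs]
        refine (S.bd t k b hb hk).trans (le_of_eq ?_)
        ring)

private lemma HulE_fun_apply (S : Sys2 X K) (k : K → ℝ) (b : ℝ) (hb : 0 ≤ b) (hk : ∀ y, |k y| ≤ b)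
    (t : StrongDual ℝ X) : HulE_fun S k b hb hk t = S.L t k := rfl

theorem gd_hull {S : Sys2 X K} {F : Set (StrongDual ℝ X)} (hF : Gd S F) (D : ℝ) : Gd S (Hull D F) := by
  obtain ⟨⟨r, hr⟩, h2⟩ := hF
  set D' : ℝ := max D 1 with hD'
  have hD1 : 1 ≤ D' := le_max_right _ _
  have hD0 : 0 < D' := by linarith
  have hDD : D ≤ D' := le_max_left _ _
  refine ⟨⟨D' * max r 0, ?_⟩, ?_⟩
  · intro t ht
    have hr0 : 0 ≤ max r 0 := le_max_right _ _
    refine ContinuousLinearMap.opNorm_le_bound _ (by positivity) fun x => ?_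
    have h1 := ht (ContinuousLinearMap.apply ℝ ℝ x) (max r 0 * ‖x‖) (by positivity) (by
      intro f hf
      show |f x| ≤ max r 0 * ‖x‖
      rw [← Real.norm_eq_abs]
      refine (f.le_opNorm x).trans ?_
      exact mul_le_mul_of_nonneg_right ((hr f hf).trans (le_max_left _ _)) (norm_nonneg _))
    have h3 : |t x| ≤ D * (max r 0 * ‖x‖) := h1
    rw [Real.norm_eq_abs]
    refine h3.trans ?_
    rw [mul_assoc]
    exact mul_le_mul_of_nonneg_right hDD (by positivity)
  · intro ε hε Y₀ hY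
    obtain ⟨E, hE, C, hC, hcon⟩ := h2 (ε / D') (by positivity) Y₀ hY
    refine ⟨E, hE, D' * C, by positivity, ?_⟩
    intro h hh δ w hδ hw hE'
    obtain ⟨g, g1, g2, g3, g4⟩ := hcon h hh δ w hδ hw hE'
    have hle : ε / D' ≤ ε := div_le_self hε.le hD1
    refine ⟨g, g1, g2, ?_, ?_⟩
    · intro y hy
      refine (g3 y hy).trans ?_
      have := mul_le_mul_of_nonneg_right hle (by linarith : 0 ≤ 1 + w)
      linarith
    · intro t ht
      have hk : ∀ y, |h y - g y| ≤ 2 := fun y => (abs_sub _ _).trans (by linarith [hh y, g1 y])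
      have hc0 : 0 ≤ ε / D' * (1 + w) + C * δ := by positivity
      have h1 := ht (HulE_fun S (fun y => h y - g y) 2 (by norm_num) hk) _ hc0 (by
        intro f hf
        rw [HulE_fun_apply]
        exact g4 f hf)
      rw [HulE_fun_apply] at h1
      refine h1.trans ?_
      refine (mul_le_mul_of_nonneg_right hDD hc0).trans (le_of_eq ?_)
      field_simp

theorem gd_approx {S : Sys2 X K} {F : Set (StrongDual ℝ X)}
    (h : ∀ ρ > 0, ∃ G, Gd S G ∧ ∀ f ∈ F, ∃ a ∈ G, ‖f - a‖ ≤ ρ) : Gd S F := by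
  constructor
  · obtain ⟨G, ⟨⟨r, hr⟩, -⟩, hG⟩ := h 1 one_pos
    refine ⟨r + 1, fun f hf => ?_⟩
    obtain ⟨a, ha, hfa⟩ := hG f hf
    have h1 : ‖f‖ ≤ ‖f - a‖ + ‖a‖ := by
      have := norm_add_le (f - a) a
      rwa [sub_add_cancel] at this
    linarith [hr a ha]
  · intro ε hε Y₀ hY
    have hq := S.hq
    obtain ⟨G, ⟨-, hG2⟩, hG⟩ := h (ε / (4 * (S.q + 1))) (by positivity)
    obtain ⟨E, hE, C, hC, hcon⟩ := hG2 (ε / 2) (by positivity) Y₀ hY
    refine ⟨E, hE, C, hC, ?_⟩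
    intro k hk δ w hδ hw hE'
    obtain ⟨g, g1, g2, g3, g4⟩ := hcon k hk δ w hδ hw hE'
    refine ⟨g, g1, g2, ?_, ?_⟩
    · intro y hy
      refine (g3 y hy).trans ?_
      have : 0 ≤ ε / 2 * (1 + w) := by positivity
      linarith
    · intro t ht
      obtain ⟨a, ha, hta⟩ := hG t ht
      have hb : ∀ y, |k y - g y| ≤ 2 := fun y => (abs_sub _ _).trans (by linarith [hk y, g1 y])
      have h1 : S.L t (fun y => k y - g y) = S.L a (fun y => k y - g y) + S.L (t - a) (fun y => k y - g y) := by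
        rw [← S.add_l _ _ _ ⟨2, hb⟩]
        congr 1
        abel
      have h2 := S.bd (t - a) (fun y => k y - g y) 2 (by norm_num) hb
      have h3 : S.q * ‖t - a‖ * 2 ≤ ε / 2 := by
        have h4 : S.q * ‖t - a‖ ≤ (S.q + 1) * (ε / (4 * (S.q + 1))) :=
          mul_le_mul (by linarith) hta (norm_nonneg _) (by linarith)
        have h5 : (S.q + 1) * (ε / (4 * (S.q + 1))) = ε / 4 := by
          field_simp
        rw [h5] at h4
        linarith
      rw [h1]
      refine (abs_add_le _ _).trans ?_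
      have h6 := g4 a ha
      have h7 : ε / 2 ≤ ε / 2 * (1 + w) := le_mul_of_one_le_right (by positivity) (by linarith)
      linarith

end Pool.Agent.H84.TE
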