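import Pool.Agent.H84.TE.Defs

/-!
# Module NhdE: uniform weak* convergence and the seminorm `W` (50 lines)

PROOF. `S.W_small (r + ‖b‖) ω` gives `η`; `S.N_cont (r + ‖b‖) η` gives `U ∈ 𝓝 0` in `WeakDual ℝ X`. A neighbourhood of `0` contains a set `{a | ∀ x ∈ s, |a x| < κ}`, `s` finite, `κ > 0` (the topology of `WeakDual` is induced by the evaluations: `Topology.IsInducing` of `fun a => (fun x => a x)` into the product, `mem_nhds_induced`, `nhds_pi`,
`Filter.mem_pi`; or `WeakBilin`, `LinearMap.weakBilin_withSeminorms`, `hasBasis`). For each `x ∈ s` eventually all `t ∈ T n` have `|t x - b x| ≤ κ/2` (`Filter.eventually_all_finite`), so `toWeakDual (t - b) ∈ U`, `N (t - b) ≤ η`, `W (t - b) ≤ ω`.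
-/

set_option autoImplicit false

open Set Filter Topology Pool.Agent.H84.TC

namespace Pool.Agent.H84.TE

variable {X : Type} [NormedAddCommGroup X] [NormedSpace ℝ X] {K : Type}

theorem W_lim (S : Sys2 X K) {T : ℕ → Set (StrongDual ℝ X)} {r : ℝ} (hr : ∀ n, ∀ t ∈ T n, ‖t‖ ≤ r)
    (b : StrongDual ℝ X) (hb : ∀ x : X, ∀ ε > 0, ∀ᶠ n in atTop, ∀ t ∈ T n, |t x - b x| ≤ ε)
    {ω : ℝ} (hω : 0 < ω) : ∀ᶠ n in atTop, ∀ t ∈ T n, S.W (t - b) ≤ ω := by
  obtain ⟨η, hη, hW⟩ := S.W_small (r + ‖b‖) ω hω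
  obtain ⟨U, hU, hN⟩ := S.N_cont (r + ‖b‖) η hη
  have hind : 𝓝 (0 : WeakDual ℝ X) =
      comap (fun (a : WeakDual ℝ X) (x : X) => a x) (𝓝 (fun x : X => (0 : WeakDual ℝ X) x)) :=
    nhds_induced _ _
  rw [hind, mem_comap] at hU
  obtain ⟨V, hV, hVU⟩ := hU
  rw [nhds_pi, Filter.mem_pi] at hV
  obtain ⟨I, hI, t, ht, htV⟩ := hV
  have hball : ∀ x ∈ I, ∀ᶠ n in atTop, ∀ τ ∈ T n, τ x - b x ∈ t x := by
    intro x _
    obtain ⟨ε, hε, hεt⟩ := Metric.mem_nhds_iff.1 (ht x)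
    filter_upwards [hb x (ε / 2) (half_pos hε)] with n hn τ hτ
    apply hεt
    have h0 : (0 : WeakDual ℝ X) x = 0 := rfl
    rw [h0, Metric.mem_ball, Real.dist_eq, sub_zero]
    have := hn τ hτ
    linarith
  have hall := (Filter.eventually_all_finite hI).2 hball
  filter_upwards [hall] with n hn τ hτ
  have hr' : ‖τ - b‖ ≤ r + ‖b‖ := (norm_sub_le τ b).trans (by linarith [hr n τ hτ])
  refine hW _ hr' (hN _ hr' (hVU ?_))
  rw [mem_preimage]
  apply htV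
  intro x hx
  exact hn x hx τ hτ

end Pool.Agent.H84.TE
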