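import Pool.Agent.H84.TE.Defs

/-!
# Module RedE: reduction of the constant (60 lines)

PROOF. Let `h`, `δ`, `w` be as in `Con` for `Pow S E J`. `sup_conv` (Pool/Agent/H84/TC/Sup.lean) with `M = δ`: `H`, `h ≤ H ≤ h + δ`, `|H y - H z| ≤ c + w d y z` on `E`. `Con` for `E` with `H`, `δ := c`: `g`, `|H - g| ≤ 2c + ε(1+w)` on `Y₀`, `|L t (H - g)| ≤ ε(1+w) + C c`.
So `|h - g| ≤ δ + 2c + ε(1+w) ≤ 2δ + (ε + 2c + C c)(1+w)` on `Y₀`. `L t (h - g) = L t (H - g) - L t (H - h)` (`Sys.sub_r`), `|L t (H - h)| ≤ q ‖t‖ / 2 * δ ≤ q r / 2 * δ` (`Sys.osc`).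
-/

set_option autoImplicit false

open Set Filter Topology Pool.Agent.H84.TC

namespace Pool.Agent.H84.TE

variable {X : Type} [NormedAddCommGroup X] [NormedSpace ℝ X] {K : Type}

theorem con_pow {S : Sys2 X K} {E : K → K → Prop} (hE : ∀ y z, E y z → E z y) {ε C c r : ℝ}
    {Y₀ : Set K} {F : Set (StrongDual ℝ X)} (h : Con S E ε C Y₀ F) (hF : ∀ t ∈ F, ‖t‖ ≤ r)
    (hε : 0 ≤ ε) (hC : 0 ≤ C) (hc : 0 < c) {J : ℕ} (hJ : 2 ≤ J * c) :
    Con S (Pow S.toSys E J) (ε + 2 * c + C * c) (S.q * r / 2) Y₀ F := by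
  intro k hk δ w hδ hw hh
  have hp : ∀ y z, Pow S.toSys E J y z → k z ≤ k y + δ + w * S.d y z := by
    intro y z hyz
    have h1 := (abs_le.1 (hh y z hyz)).1
    linarith
  obtain ⟨H, hH1, hH2, hH3, hH4⟩ := sup_conv S.toSys hE hk hc hw hδ hJ hp
  obtain ⟨g, g1, g2, g3, g4⟩ := h H hH1 c w hc.le hw hH4
  have hCc : 0 ≤ C * c := mul_nonneg hC hc.le
  have e1 : 0 ≤ C * c * w := mul_nonneg hCc hw
  have e2 : 0 ≤ c * w := mul_nonneg hc.le hw
  refine ⟨g, g1, g2, ?_, ?_⟩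
  · intro y hy
    have h1 := abs_le.1 (g3 y hy)
    have h2 := hH2 y
    have h3 := hH3 y
    rw [abs_le]
    constructor <;> nlinarith [h1.1, h1.2]
  · intro t ht
    have h1 := g4 t ht
    have h2 := S.osc (t := t) (g := fun y => H y - k y) hδ (fun y => by linarith [hH2 y])
      (fun y => by linarith [hH3 y])
    have h3 : S.L t (fun y => k y - g y) =
        S.L t (fun y => H y - g y) - S.L t (fun y => H y - k y) := by
      rw [← S.sub_r (bd_diff hH1 g1) (bd_diff hH1 hk)]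
      congr 1
      funext y
      ring
    have h4 : S.q * ‖t‖ / 2 * δ ≤ S.q * r / 2 * δ := by
      apply mul_le_mul_of_nonneg_right _ hδ
      have := mul_le_mul_of_nonneg_left (hF t ht) S.hq
      linarith
    rw [h3]
    have h5 := abs_sub (S.L t (fun y => H y - g y)) (S.L t (fun y => H y - k y))
    have h6 : |S.L t (fun y => H y - g y)| + |S.L t (fun y => H y - k y)| ≤
        (ε * (1 + w) + C * c) + S.q * r / 2 * δ := add_le_add h1 (h2.trans h4)
    refine (h5.trans h6).trans ?_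
    nlinarith

end Pool.Agent.H84.TE
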