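import Pool.Agent.H84.TE.UniE
import Pool.Agent.H84.TE.RedE
import Pool.Agent.H84.TE.NhdE

/-!
# Module LimA: the tail of a convergent sequence of good sets (150 lines)

PROOF. `r' = max r ‖b‖` (`≥ 0`), `C* = q r' / 2`. Let `ε`, `Y₀` be given. `E₀`, `C₀`: control of `{b}` (`gd_point`) with the error `ε/2` and `Y₀`. For `k : ℕ` put `ρ_k = 1/(k+1)`, `ω_k = 1/(k+1)^2`. By `W_lim` there are `m_k` with `W (t - b) ≤ ω_k` for `t ∈ T n`, `n ≥ m_k`; for `n` large let `k(n) =` the largest `k ≤ n` with `m_j ≤ n` for all `j ≤ k`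
(tends to infinity). SIMPLER: state everything with a sequence `ω n → 0`, `ω n > 0`, `W (t - b) ≤ ω n` on `T n` (exists: `ω n = sSup` of the values `+ 1/(n+1)`, or by the above), and `ρ n = sqrt (ω n) → 0`.
For every `n`: `T n ∪ {b}` is good (`gd_union`, `gd_point`): control with `E_n`, error `ω n / 4`, constant `C_n`, `Y₀ := ∅`; `c_n = ω n / (4 (C_n + 2))`; `con_pow`: `Pow S E_n J_n` controls `T n ∪ {b}` with the error `≤ ω n` and the constant `C*`. `G_n y z := Pow E_n J_n y z ∧ d y z ≤ ρ n` (small by `small_sub`, `small_pow`).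
`E y z := E₀ y z ∨ ∃ n ≥ n₀, G_n y z` (`small_or`, `small_iUnion` with the relations `G_(n+n₀)`), `n₀` with `2 ω n + 2 ρ n ... ≤ ε/2` (below). Let `h`, `δ`, `w` be given; `g₀` from the control of `{b}`. Let `t ∈ T n`, `n ≥ n₀`. On `Pow E_n J_n`: `|h y - h z| ≤ δ + (w + 2/ρ n) d y z` (if `d > ρ n` then `|h y - h z| ≤ 2 ≤ (2/ρ n) d`), so the
control gives `g_n`, `(w + 2/ρ n)`-Lipschitz, `|L s (h - g_n)| ≤ ω n (1 + w + 2/ρ n) + C* δ` for `s = t, b`. `L t (h - g₀) = L b (h - g₀) + L (t-b) (h - g_n) + L (t-b) (g_n - g₀)`, and `g_n - g₀` is `(2w + 2/ρ n)`-Lipschitz: `|L (t-b) (g_n - g₀)| ≤ (2w + 2/ρ n) W (t-b) ≤ (2w + 2/ρ n) ω n` (`W_lip`). Total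
`≤ (ε/2)(1+w) + C₀ δ + 2 (ω n (1 + w + 2/ρ n) + C* δ) + (2w + 2/ρ n) ω n`; `ω n/ρ n = ρ n`, so the terms with `n` are `≤ (4 ω n + 6 ρ n)(1 + w)`: choose `n₀` with `4 ω n + 6 ρ n ≤ ε/2` for `n ≥ n₀`. Constant `C₀ + 2 C*`.
-/

set_option autoImplicit false

open Set Filter Topology Pool.Agent.H84.TC

namespace Pool.Agent.H84.TE

variable {X : Type} [NormedAddCommGroup X] [NormedSpace ℝ X] {K : Type}

private lemma LimA_shell {S : Sys2 X K} {F : Set (StrongDual ℝ X)} (hF : Gd S F) {r : ℝ}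
    (hr : ∀ t ∈ F, ‖t‖ ≤ r) {ω : ℝ} (hω : 0 < ω) :
    ∃ E, Small S.toSys E ∧ Con S E ω (S.q * r / 2) ∅ F := by
  obtain ⟨E, hE, C, hC, hcon⟩ := hF.2 (ω / 4) (by linarith) ∅ Set.finite_empty
  have hC2 : 0 < C + 2 := by linarith
  set c : ℝ := ω / (4 * (C + 2)) with hc
  have hcp : 0 < c := by positivity
  obtain ⟨J, hJ⟩ := exists_nat_ge (2 / c)
  have hJ2 : 2 ≤ (J : ℝ) * c := by
    rwa [div_le_iff₀ hcp] at hJ
  have hce : (C + 2) * c = ω / 4 := by
    rw [hc]
    field_simp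
  refine ⟨Pow S.toSys E J, small_pow hE J, ?_⟩
  refine (con_pow hE.1 hcon hr (by linarith) hC hcp hJ2).mono (fun _ _ h => h) ?_ le_rfl
    (subset_refl _) (subset_refl _)
  nlinarith

theorem lim_tail (S : Sys2 X K) {T : ℕ → Set (StrongDual ℝ X)} (hT : ∀ n, Gd S (T n)) {r : ℝ}
    (hr : ∀ n, ∀ t ∈ T n, ‖t‖ ≤ r) (b : StrongDual ℝ X) {ω : ℕ → ℝ} (hω : ∀ n, 0 < ω n)
    (hω0 : Tendsto ω atTop (𝓝 0)) (hW : ∀ n, ∀ t ∈ T n, S.W (t - b) ≤ ω n)
    {ε : ℝ} (hε : 0 < ε) {Y₀ : Set K} (hY : Y₀.Finite) :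
    ∃ n₀ : ℕ, ∃ E, Small S.toSys E ∧ ∃ C : ℝ, 0 ≤ C ∧ Con S E ε C Y₀ ({b} ∪ ⋃ n, T (n + n₀)) := by
  set r' : ℝ := max r ‖b‖ with hr'
  have hr'0 : 0 ≤ r' := (norm_nonneg b).trans (le_max_right _ _)
  set Cs : ℝ := S.q * r' / 2 with hCs
  have hCs0 : 0 ≤ Cs := by
    have := S.hq
    positivity
  obtain ⟨E₀, hE₀, C₀, hC₀, hcon₀⟩ := (gd_point S b).2 (ε / 2) (by linarith) Y₀ hY
  have hsh : ∀ n, ∃ E, Small S.toSys E ∧ Con S E (ω n) Cs ∅ (T n ∪ {b}) := by
    intro n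
    refine LimA_shell (gd_union (hT n) (gd_point S b)) ?_ (hω n)
    rintro t (ht | ht)
    · exact (hr n t ht).trans (le_max_left _ _)
    · rw [Set.mem_singleton_iff.1 ht]
      exact le_max_right _ _
  choose En hEn hconn using hsh
  set ρ : ℕ → ℝ := fun n => Real.sqrt (ω n) with hρ
  have hρp : ∀ n, 0 < ρ n := fun n => Real.sqrt_pos.2 (hω n)
  have hρsq : ∀ n, ρ n * ρ n = ω n := fun n => Real.mul_self_sqrt (hω n).le
  have hρ0 : Tendsto ρ atTop (𝓝 0) := by
    have h := (Real.continuous_sqrt.tendsto 0).comp hω0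
    rw [Real.sqrt_zero] at h
    exact h
  have hsum : Tendsto (fun n => 4 * ω n + 6 * ρ n) atTop (𝓝 0) := by
    have h := (hω0.const_mul 4).add (hρ0.const_mul 6)
    simpa using h
  have hev : ∀ᶠ n in atTop, 4 * ω n + 6 * ρ n ≤ ε / 2 :=
    hsum.eventually_le_const (by linarith)
  obtain ⟨n₀, hn₀⟩ := eventually_atTop.1 hev
  set G : ℕ → K → K → Prop := fun n y z => En n y z ∧ S.d y z ≤ ρ n with hG
  have hGs : ∀ n, Small S.toSys (G n) := by
    intro n
    refine small_sub (hEn n) ?_ (fun y z h => h.1)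
    rintro y z ⟨h1, h2⟩
    exact ⟨(hEn n).1 y z h1, by rwa [S.d_comm]⟩
  refine ⟨n₀, fun y z => E₀ y z ∨ ∃ n, G (n + n₀) y z,
    small_or hE₀ (small_iUnion (ρ := fun n => ρ (n + n₀)) (fun n => hGs (n + n₀)) ?_
      (fun n y z h => h.2)), C₀ + 2 * Cs, by linarith, ?_⟩
  · exact (tendsto_add_atTop_iff_nat n₀).2 hρ0
  intro h hh δ w hδ hw hE
  obtain ⟨g, hg1, hg2, hg3, hg4⟩ := hcon₀ h hh δ w hδ hw (fun y z hyz => hE y z (Or.inl hyz))
  have hbw : 0 ≤ ε / 2 * (1 + w) := by positivity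
  have hCd : 0 ≤ Cs * δ := mul_nonneg hCs0 hδ
  refine ⟨g, hg1, hg2, fun y hy => (hg3 y hy).trans (by linarith), ?_⟩
  have hb4 := hg4 b rfl
  rintro t (ht | ht)
  · rw [Set.mem_singleton_iff.1 ht]
    refine hb4.trans ?_
    linarith
  · obtain ⟨n, hn⟩ := Set.mem_iUnion.1 ht
    set m := n + n₀ with hm
    have hmε : 4 * ω m + 6 * ρ m ≤ ε / 2 := hn₀ m (by omega)
    have hρm := hρp m
    have h2ρ : 0 < 2 / ρ m := by positivity
    obtain ⟨k, hk1, hk2, -, hk4⟩ := hconn m h hh δ (w + 2 / ρ m) hδ (by linarith) (by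
      intro y z hyz
      by_cases hd : S.d y z ≤ ρ m
      · refine (hE y z (Or.inr ⟨n, hyz, hd⟩)).trans ?_
        have := mul_nonneg h2ρ.le (S.d_nonneg y z)
        linarith
      · have hd' : ρ m < S.d y z := not_le.1 hd
        have h1 : 2 ≤ 2 / ρ m * S.d y z := by
          rw [div_mul_eq_mul_div, le_div_iff₀ hρm]
          nlinarith
        have h2 : |h y - h z| ≤ 2 := by
          have ha := abs_le.1 (hh y)
          have hb := abs_le.1 (hh z)
          rw [abs_le]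
          constructor <;> linarith [ha.1, ha.2, hb.1, hb.2]
        have h3 := mul_nonneg hw (S.d_nonneg y z)
        linarith)
    have hωρ : ω m * (2 / ρ m) = 2 * ρ m := by
      rw [← hρsq m]
      field_simp
    have hkt := hk4 t (Or.inl hn)
    have hkb := hk4 b (Or.inr rfl)
    have hBg : Bd (fun y => h y - g y) := bd_diff hh hg1
    have hBk : Bd (fun y => h y - k y) := bd_diff hh hk1
    have hBkg : Bd (fun y => k y - g y) := bd_diff hk1 hg1
    have e1 : S.L t (fun y => h y - g y) =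
        S.L b (fun y => h y - g y) + S.L (t - b) (fun y => h y - g y) := by
      rw [S.sub_l hBg]
      ring
    have e2 : S.L (t - b) (fun y => h y - g y) =
        S.L (t - b) (fun y => h y - k y) + S.L (t - b) (fun y => k y - g y) := by
      rw [← S.add_r (t - b) _ _ hBk hBkg]
      congr 1
      ext y
      ring
    have e3 : S.L (t - b) (fun y => h y - k y) =
        S.L t (fun y => h y - k y) - S.L b (fun y => h y - k y) := S.sub_l hBk
    have hWl : |S.L (t - b) (fun y => k y - g y)| ≤ (w + 2 / ρ m + w) * S.W (t - b) := by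
      refine S.W_lip (t - b) _ _ (by linarith) ?_
      intro y z
      have ha := hk2 y z
      have hb := hg2 y z
      have hc : k y - g y - (k z - g z) = (k y - k z) - (g y - g z) := by ring
      rw [hc]
      refine (abs_sub _ _).trans ?_
      rw [add_mul]
      exact add_le_add ha hb
    have hWm := hW m t hn
    have hWl2 : |S.L (t - b) (fun y => k y - g y)| ≤ (w + 2 / ρ m + w) * ω m :=
      hWl.trans (mul_le_mul_of_nonneg_left hWm (by linarith))
    rw [e1, e2, e3]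
    have hfin : |S.L b (fun y => h y - g y) + (S.L t (fun y => h y - k y) -
        S.L b (fun y => h y - k y) + S.L (t - b) (fun y => k y - g y))| ≤
        |S.L b (fun y => h y - g y)| + (|S.L t (fun y => h y - k y)| +
          |S.L b (fun y => h y - k y)| + |S.L (t - b) (fun y => k y - g y)|) := by
      refine (abs_add_le _ _).trans (add_le_add le_rfl ?_)
      refine (abs_add_le _ _).trans (add_le_add ?_ le_rfl)
      exact abs_sub _ _
    refine hfin.trans ?_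
    have hexp : ω m * (1 + (w + 2 / ρ m)) = ω m * (1 + w) + 2 * ρ m := by
      rw [← hωρ]
      ring
    have hexp2 : (w + 2 / ρ m + w) * ω m = 2 * (w * ω m) + 2 * ρ m := by
      rw [← hωρ]
      ring
    rw [hexp] at hkt hkb
    rw [hexp2] at hWl2
    have hwω : 0 ≤ w * ω m := mul_nonneg hw (hω m).le
    have hwρ : 0 ≤ w * ρ m := mul_nonneg hw hρm.le
    have hlast : (4 * ω m + 6 * ρ m) * (1 + w) ≤ ε / 2 * (1 + w) :=
      mul_le_mul_of_nonneg_right hmε (by linarith)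
    nlinarith [hω m]

end Pool.Agent.H84.TE
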