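import Pool.Agent.H84.TE.LimA

/-!
# Module LimB: limits of good sets (90 lines)

PROOF. `ω`: for every `n` the numbers `W (t - b)`, `t ∈ T n`, are bounded (`W_small (r + ‖b‖) 1` and scaling, or simply: `W (t - b) ≤ q (r + ‖b‖) * M`? no such axiom: use instead the eventual statement of `W_lim`): by `W_lim` with `ω = 1/(k+1)` there are `m_k` such that `W (t - b) ≤ 1/(k+1)` for `t ∈ T n`, `n ≥ m_k`. Shift: it is enough to treat
`T' n = T (n + m_0)` (the finitely many first sets are added with `gd_union` at the end), for which `W (t - b) ≤ 1` always; `ω n = sSup {W (t - b) | t ∈ T' n} + 1/(n+1)` (bounded by `1`; `sSup ∅ = 0`) tends to `0` by `W_lim`.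
Then for every `ε`, `Y₀`: `lim_tail` gives `n₀` and the control of `{b} ∪ ⋃ n, T' (n + n₀)`; the other `T' n`, `n < n₀` (finitely many), must be added to the control: the union argument of `gd_union` for one fixed `ε`, `Y₀`: state and prove the lemma `con_union`: if for ALL `ε`, `Y₀` (finite) there is a set `A` (depending on `ε`, `Y₀`) with
`F = A ∪ B`, `A` controlled with `ε`, `Y₀` and `B` good, then `F` is good (same computation as in UniE: take `κ`, `Y₁` as there first, then `A`, `B` for them; `B = ⋃ n < n₀, T' n` is good by induction with `gd_union`, bounded by `r`).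
-/

set_option autoImplicit false

open Set Filter Topology Pool.Agent.H84.TC

namespace Pool.Agent.H84.TE

variable {X : Type} [NormedAddCommGroup X] [NormedSpace ℝ X] {K : Type}

private lemma LimB_lip {S : Sys2 X K} {f g : K → ℝ} {w κ b : ℝ} (hw : 0 ≤ w)
    (hf : ∀ y z, |f y - f z| ≤ w * S.d y z) (hg : ∀ y z, |g y - g z| ≤ w * S.d y z)
    {Z : Set K} (hZ : ∀ y, ∃ z ∈ Z, S.N (S.Φ y - S.Φ z) ≤ κ)
    (hb : ∀ z ∈ Z, |g z - f z| ≤ b) (y : K) : |g y - f y| ≤ b + 2 * (w * κ) := by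
  obtain ⟨z, hz, hd⟩ := hZ y
  have h0 : S.d y z ≤ κ := hd
  have h1 := hf y z
  have h2 := hg y z
  have h3 := hb z hz
  have h4 : w * S.d y z ≤ w * κ := mul_le_mul_of_nonneg_left h0 hw
  have e : g y - f y = (g y - g z) + (g z - f z) - (f y - f z) := by ring
  rw [e]
  have h5 := abs_sub ((g y - g z) + (g z - f z)) (f y - f z)
  have h6 := abs_add_le (g y - g z) (g z - f z)
  linarith

private lemma LimB_un {S : Sys2 X K} {F : Set (StrongDual ℝ X)} {r : ℝ} (hr0 : 0 ≤ r)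
    (hrF : ∀ t ∈ F, ‖t‖ ≤ r)
    (H : ∀ ε > 0, ∀ Y₀ : Set K, Y₀.Finite → ∃ A B : Set (StrongDual ℝ X), F ⊆ A ∪ B ∧ Gd S B ∧
      (∀ t ∈ B, ‖t‖ ≤ r) ∧ ∃ E, Small S.toSys E ∧ ∃ C : ℝ, 0 ≤ C ∧ Con S E ε C Y₀ A) :
    Gd S F := by
  refine ⟨⟨r, hrF⟩, ?_⟩
  intro ε hε Y₀ hY
  have hq : 0 ≤ S.q := S.hq
  have hqr : 0 ≤ S.q * r := mul_nonneg hq hr0
  have h8 : 0 < 8 * (S.q * r + 1) := by linarith
  set κ : ℝ := min (ε / 4) (ε / (8 * (S.q * r + 1))) with hκ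
  have hκ0 : 0 < κ := lt_min (by linarith) (div_pos hε h8)
  have hκ1 : κ ≤ ε / 4 := min_le_left _ _
  have hκ2 : κ * (8 * (S.q * r + 1)) ≤ ε := by
    have h := min_le_right (ε / 4) (ε / (8 * (S.q * r + 1)))
    rw [← hκ] at h
    exact (le_div_iff₀ h8).1 h
  obtain ⟨Z, hZf, hZ⟩ := S.net κ hκ0
  obtain ⟨A, B, hAB, hB, hrG, E₁, hE1, C₁, hC1, hc1⟩ := H κ hκ0 (Y₀ ∪ Z) (hY.union hZf)
  obtain ⟨E₂, hE2, C₂, hC2, hc2⟩ := hB.2 κ hκ0 (Y₀ ∪ Z) (hY.union hZf)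
  refine ⟨fun y z => E₁ y z ∨ E₂ y z, small_or hE1 hE2, max C₁ (C₂ + 4 * (S.q * r)),
    hC1.trans (le_max_left _ _), ?_⟩
  intro h hh δ w hδ hw hE
  obtain ⟨g₁, a1, a2, a3, a4⟩ := hc1 h hh δ w hδ hw fun y z hyz => hE y z (Or.inl hyz)
  obtain ⟨g₂, b1, b2, b3, b4⟩ := hc2 h hh δ w hδ hw fun y z hyz => hE y z (Or.inr hyz)
  have h1w : 0 ≤ 1 + w := by linarith
  have hκε : κ * (1 + w) ≤ ε * (1 + w) := mul_le_mul_of_nonneg_right (by linarith) h1w
  refine ⟨g₁, a1, a2, fun y hy => (a3 y (Or.inl hy)).trans (by linarith), ?_⟩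
  intro t htF
  rcases hAB htF with ht | ht
  · refine (a4 t ht).trans ?_
    have h5 : C₁ * δ ≤ max C₁ (C₂ + 4 * (S.q * r)) * δ :=
      mul_le_mul_of_nonneg_right (le_max_left _ _) hδ
    linarith
  · have hz : ∀ z ∈ Z, |g₂ z - g₁ z| ≤ 4 * δ + 2 * (κ * (1 + w)) := by
      intro z hz
      have h5 := a3 z (Or.inr hz)
      have h6 := b3 z (Or.inr hz)
      have e : g₂ z - g₁ z = (h z - g₁ z) - (h z - g₂ z) := by ring
      rw [e]
      have h7 := abs_sub (h z - g₁ z) (h z - g₂ z)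
      linarith
    have hall : ∀ y, |g₂ y - g₁ y| ≤ 4 * δ + 4 * (κ * (1 + w)) := by
      intro y
      have h5 := LimB_lip (S := S) hw a2 b2 hZ hz y
      have h6 : 2 * (w * κ) ≤ 2 * (κ * (1 + w)) := by nlinarith
      linarith
    have hb1 : Bd h := ⟨1, hh⟩
    have hb2 : Bd g₁ := ⟨1, a1⟩
    have hb3 : Bd g₂ := ⟨1, b1⟩
    have e1 : S.L t (fun y => h y - g₁ y) =
        S.L t (fun y => h y - g₂ y) + S.L t (fun y => g₂ y - g₁ y) := by
      rw [S.sub_r hb1 hb2, S.sub_r hb1 hb3, S.sub_r hb3 hb2]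
      ring
    rw [e1]
    have hM0 : 0 ≤ 4 * δ + 4 * (κ * (1 + w)) := by
      have : 0 ≤ κ * (1 + w) := mul_nonneg hκ0.le h1w
      linarith
    have h5 := S.bd t (fun y => g₂ y - g₁ y) (4 * δ + 4 * (κ * (1 + w))) hM0 hall
    have h6 : S.q * ‖t‖ ≤ S.q * r := mul_le_mul_of_nonneg_left (hrG t ht) hq
    have h7 : S.q * ‖t‖ * (4 * δ + 4 * (κ * (1 + w))) ≤ S.q * r * (4 * δ + 4 * (κ * (1 + w))) :=
      mul_le_mul_of_nonneg_right h6 hM0
    have h9 := b4 t ht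
    have h10 := abs_add_le (S.L t (fun y => h y - g₂ y)) (S.L t (fun y => g₂ y - g₁ y))
    have h11 : (C₂ + 4 * (S.q * r)) * δ ≤ max C₁ (C₂ + 4 * (S.q * r)) * δ :=
      mul_le_mul_of_nonneg_right (le_max_right _ _) hδ
    have h12 : (κ + 4 * (S.q * r) * κ) * (1 + w) ≤ ε * (1 + w) := by
      refine mul_le_mul_of_nonneg_right ?_ h1w
      nlinarith
    nlinarith

private lemma LimB_fin {S : Sys2 X K} {T : ℕ → Set (StrongDual ℝ X)} (hT : ∀ n, Gd S (T n))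
    (m : ℕ) : Gd S {t | ∃ n < m, t ∈ T n} := by
  induction m with
  | zero =>
    refine (gd_point S 0).mono ?_
    rintro t ⟨n, hn, -⟩
    exact absurd hn (Nat.not_lt_zero n)
  | succ m ih =>
    refine (gd_union ih (hT m)).mono ?_
    rintro t ⟨n, hn, ht⟩
    rcases Nat.lt_succ_iff_lt_or_eq.1 hn with h | h
    · exact Or.inl ⟨n, h, ht⟩
    · exact Or.inr (h ▸ ht)

theorem gd_lim (S : Sys2 X K) {T : ℕ → Set (StrongDual ℝ X)} (hT : ∀ n, Gd S (T n)) {r : ℝ}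
    (hr : ∀ n, ∀ t ∈ T n, ‖t‖ ≤ r) (b : StrongDual ℝ X)
    (hb : ∀ x : X, ∀ ε > 0, ∀ᶠ n in atTop, ∀ t ∈ T n, |t x - b x| ≤ ε) :
    Gd S ({b} ∪ ⋃ n, T n) := by
  obtain ⟨m₀, hm₀⟩ := eventually_atTop.1 (W_lim S hr b hb one_pos)
  set T' : ℕ → Set (StrongDual ℝ X) := fun n => T (n + m₀) with hT'
  have hW1 : ∀ n, ∀ t ∈ T' n, S.W (t - b) ≤ 1 := fun n t ht => hm₀ (n + m₀) (by omega) t ht
  set ω : ℕ → ℝ := fun n => sSup ((fun t => S.W (t - b)) '' T' n) + 1 / ((n : ℝ) + 1) with hω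
  have hs0 : ∀ n, 0 ≤ sSup ((fun t => S.W (t - b)) '' T' n) := by
    intro n
    apply Real.sSup_nonneg
    rintro _ ⟨t, -, rfl⟩
    exact S.W_nonneg _
  have hp : ∀ n : ℕ, 0 < 1 / ((n : ℝ) + 1) := fun n => by positivity
  have hω0 : ∀ n, 0 < ω n := fun n => add_pos_of_nonneg_of_pos (hs0 n) (hp n)
  have hωW : ∀ n, ∀ t ∈ T' n, S.W (t - b) ≤ ω n := by
    intro n t ht
    have hbd : BddAbove ((fun t => S.W (t - b)) '' T' n) := by
      refine ⟨1, ?_⟩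
      rintro _ ⟨t, ht, rfl⟩
      exact hW1 n t ht
    have h1 : S.W (t - b) ≤ sSup ((fun t => S.W (t - b)) '' T' n) := le_csSup hbd ⟨t, ht, rfl⟩
    exact h1.trans (le_add_of_nonneg_right (hp n).le)
  have hωt : Tendsto ω atTop (𝓝 0) := by
    have h1 : Tendsto (fun n => sSup ((fun t => S.W (t - b)) '' T' n)) atTop (𝓝 0) := by
      rw [Metric.tendsto_atTop]
      intro ε hε
      obtain ⟨m, hm⟩ := eventually_atTop.1 (W_lim S hr b hb (half_pos hε))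
      refine ⟨m, fun n hn => ?_⟩
      have h2 : sSup ((fun t => S.W (t - b)) '' T' n) ≤ ε / 2 := by
        apply Real.sSup_le _ (half_pos hε).le
        rintro _ ⟨t, ht, rfl⟩
        exact hm (n + m₀) (by omega) t ht
      rw [Real.dist_eq, sub_zero, abs_of_nonneg (hs0 n)]
      linarith
    have h2 := h1.add (tendsto_one_div_add_atTop_nhds_zero_nat (𝕜 := ℝ))
    rw [add_zero] at h2
    exact h2
  have hT'g : ∀ n, Gd S (T' n) := fun n => hT _
  have hT'r : ∀ n, ∀ t ∈ T' n, ‖t‖ ≤ r := fun n t ht => hr _ t ht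
  have hmain : Gd S ({b} ∪ ⋃ n, T' n) := by
    refine LimB_un (r := max r ‖b‖) ((norm_nonneg b).trans (le_max_right _ _)) ?_ ?_
    · rintro t (ht | ht)
      · rw [Set.mem_singleton_iff.1 ht]
        exact le_max_right _ _
      · obtain ⟨n, hn⟩ := Set.mem_iUnion.1 ht
        exact (hT'r n t hn).trans (le_max_left _ _)
    · intro ε hε Y₀ hY
      obtain ⟨n₀, E, hE, C, hC, hcon⟩ := lim_tail S hT'g hT'r b hω0 hωt hωW hε hY
      refine ⟨{b} ∪ ⋃ n, T' (n + n₀), {t | ∃ n < n₀, t ∈ T' n}, ?_, LimB_fin hT'g n₀, ?_, E, hE, C,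
        hC, hcon⟩
      · rintro t (ht | ht)
        · exact Or.inl (Or.inl ht)
        · obtain ⟨n, hn⟩ := Set.mem_iUnion.1 ht
          by_cases h : n < n₀
          · exact Or.inr ⟨n, h, hn⟩
          · refine Or.inl (Or.inr (Set.mem_iUnion.2 ⟨n - n₀, ?_⟩))
            rwa [Nat.sub_add_cancel (not_lt.1 h)]
      · rintro t ⟨n, -, ht⟩
        exact (hT'r n t ht).trans (le_max_left _ _)
  refine (gd_union hmain (LimB_fin hT m₀)).mono ?_
  rintro t (ht | ht)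
  · exact Or.inl (Or.inl ht)
  · obtain ⟨n, hn⟩ := Set.mem_iUnion.1 ht
    by_cases h : n < m₀
    · exact Or.inr ⟨n, h, hn⟩
    · refine Or.inl (Or.inr (Set.mem_iUnion.2 ⟨n - m₀, ?_⟩))
      change t ∈ T (n - m₀ + m₀)
      rwa [Nat.sub_add_cancel (not_lt.1 h)]

end Pool.Agent.H84.TE
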