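import Pool.Agent.H84.TE.Defs
import Pool.Agent.H84.TC.MkA
import Pool.Agent.H84.TC.NTop
import Pool.Agent.H84.TC.Was

/-!
# Module MkE: the system with the net (150 lines; the proof of Pool/Agent/H84/TC/MkB.lean `exists_sys` with one more field)

PROOF. As in MkB.lean (see the header there; copy the proof of `exists_sys` as soon as it has landed and add the field `net`). `net`: `K = K₀ × Bool` is compact and `y ↦ N (Φ y - Φ z)` is continuous (`N_cont` with `r = 2`), so `univ` is covered by the open sets `{y | N (Φ y - Φ z) < ρ}`, `z ∈ K`: `IsCompact.elim_nhds_subcover` / `CompactSpace.elim_nhds_subcover`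
(see the private lemmas of Lip.lean).
-/

set_option autoImplicit false

open Set Filter Topology Pool.Agent.H84.TC

namespace Pool.Agent.H84.TE

variable {X : Type} [NormedAddCommGroup X] [NormedSpace ℝ X]

/-- composition with a continuous map -/
private noncomputable def MkE_pull {S T : Type} [TopologicalSpace S] [CompactSpace S] [TopologicalSpace T]
    [CompactSpace T] (g : C(S, T)) : C(T, ℝ) →L[ℝ] C(S, ℝ) :=
  LinearMap.mkContinuous
    { toFun := fun f => f.comp g
      map_add' := fun _ _ => rfl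
      map_smul' := fun _ _ => rfl } 1
    (fun f => by
      rw [one_mul]
      exact (ContinuousMap.norm_le _ (norm_nonneg f)).2 fun y => f.norm_coe_le_norm (g y))

private lemma MkE_pull_apply {S T : Type} [TopologicalSpace S] [CompactSpace S] [TopologicalSpace T]
    [CompactSpace T] (g : C(S, T)) (f : C(T, ℝ)) (y : S) : MkE_pull g f y = f (g y) := rfl

/-- the inclusions -/
private def MkE_inc {S : Type} [TopologicalSpace S] (b : Bool) : C(S, S × Bool) :=
  ⟨fun y => (y, b), continuous_id.prodMk continuous_const⟩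

private def MkE_sg (b : Bool) : ℝ := if b then 1 else -1

private lemma MkE_sg_abs (b : Bool) : |MkE_sg b| = 1 := by
  cases b <;> simp [MkE_sg]

/-- the odd part -/
private noncomputable def MkE_odd {S : Type} (h : S × Bool → ℝ) (y : S) : ℝ :=
  (h (y, true) - h (y, false)) / 2

private lemma MkE_odd_le {S : Type} {h : S × Bool → ℝ} {y : S} {b : ℝ} (h1 : |h (y, true)| ≤ b)
    (h2 : |h (y, false)| ≤ b) : |MkE_odd h y| ≤ b := by
  unfold MkE_odd
  rw [abs_le] at *
  constructor <;> linarith [h1.1, h1.2, h2.1, h2.2]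

private lemma MkE_odd_bd {S : Type} {h : S × Bool → ℝ} (hh : Bd h) : Bd (MkE_odd h) := by
  obtain ⟨b, hb⟩ := hh
  exact ⟨b, fun y => MkE_odd_le (hb _) (hb _)⟩

private lemma MkE_sep {K₀ : Type} [TopologicalSpace K₀] [CompactSpace K₀] [TopologicalSpace.MetrizableSpace K₀]
    (J : X →L[ℝ] C(K₀, ℝ)) (P : C(K₀, ℝ) →L[ℝ] X) (hP : ∀ x, P (J x) = x) :
    TopologicalSpace.SeparableSpace X := by
  let _ := TopologicalSpace.metrizableSpaceMetric K₀
  have h1 : AntilipschitzWith ‖P‖₊ J := by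
    refine AddMonoidHomClass.antilipschitz_of_bound J fun x => ?_
    have h2 := P.le_opNorm (J x)
    rw [hP] at h2
    exact h2
  have h3 := (h1.isUniformEmbedding J.uniformContinuous).isEmbedding
  have := h3.secondCountableTopology
  infer_instance

/-- near a point the distance is small -/
private lemma MkE_near (NS : NSys X) {T : Type} [TopologicalSpace T] (Φ : T → StrongDual ℝ X)
    (hΦ : ∀ y, ‖Φ y‖ ≤ 1) (hc : Continuous fun y => StrongDual.toWeakDual (Φ y)) {κ : ℝ} (hκ : 0 < κ)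
    (z : T) : ∀ᶠ y in 𝓝 z, NS.N (Φ y - Φ z) ≤ κ := by
  obtain ⟨U, hU, hN⟩ := NS.N_cont 2 κ hκ
  have h1 : Tendsto (fun y => StrongDual.toWeakDual (Φ y) - StrongDual.toWeakDual (Φ z)) (𝓝 z)
      (𝓝 0) := by
    have h2 := (hc.sub continuous_const).tendsto (f := fun y =>
      StrongDual.toWeakDual (Φ y) - StrongDual.toWeakDual (Φ z)) z
    rwa [sub_self] at h2
  filter_upwards [h1 hU] with y hy
  refine hN _ ?_ ?_
  · calc ‖Φ y - Φ z‖ ≤ ‖Φ y‖ + ‖Φ z‖ := norm_sub_le _ _
      _ ≤ 1 + 1 := add_le_add (hΦ y) (hΦ z)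
      _ = 2 := by norm_num
  · rw [map_sub]
    exact hy

theorem exists_sys2 {K₀ : Type} [TopologicalSpace K₀] [CompactSpace K₀] [TopologicalSpace.MetrizableSpace K₀]
    [TopologicalSpace.SeparableSpace (StrongDual ℝ X)] (J : X →L[ℝ] C(K₀, ℝ)) (P : C(K₀, ℝ) →L[ℝ] X)
    (hP : ∀ x, P (J x) = x) (hJ : ‖J‖ ≤ 1) :
    ∃ (K : Type) (S : Sys2 X K), S.q = ‖P‖ := by
  classical
  have := MkE_sep J P hP
  obtain ⟨NS⟩ := exists_nsys (X := X)
  let φ : K₀ → StrongDual ℝ X := fun y => (ContinuousMap.evalCLM ℝ y).comp J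
  have hφa : ∀ y x, φ y x = J x y := fun y x => rfl
  have hφn : ∀ y, ‖φ y‖ ≤ 1 := by
    intro y
    refine ContinuousLinearMap.opNorm_le_bound _ zero_le_one fun x => ?_
    rw [hφa]
    calc ‖J x y‖ ≤ ‖J x‖ := (J x).norm_coe_le_norm y
      _ ≤ ‖J‖ * ‖x‖ := J.le_opNorm x
      _ ≤ 1 * ‖x‖ := mul_le_mul_of_nonneg_right hJ (norm_nonneg _)
  have hφc : Continuous fun y => StrongDual.toWeakDual (φ y) :=
    WeakDual.continuous_of_continuous_eval fun x => (J x).continuous
  obtain ⟨L₀, hadd, hsm, haddr, hsmr, hbd, hev, htight⟩ := exists_ext φ hφc P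
  let Φ : K₀ × Bool → StrongDual ℝ X := fun p => MkE_sg p.2 • φ p.1
  have hΦa : ∀ p x, Φ p x = MkE_sg p.2 * J x p.1 := fun p x => rfl
  have hΦn : ∀ p, ‖Φ p‖ ≤ 1 := by
    intro p
    show ‖MkE_sg p.2 • φ p.1‖ ≤ 1
    rw [norm_smul, Real.norm_eq_abs, MkE_sg_abs, one_mul]
    exact hφn _
  have hΦc : Continuous fun p => StrongDual.toWeakDual (Φ p) := by
    refine WeakDual.continuous_of_continuous_eval fun x => ?_
    show Continuous fun p : K₀ × Bool => MkE_sg p.2 * J x p.1
    have h1 : Continuous MkE_sg := continuous_of_discreteTopology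
    exact (h1.comp continuous_snd).mul ((J x).continuous.comp continuous_fst)
  let R : C(K₀ × Bool, ℝ) →L[ℝ] C(K₀, ℝ) :=
    (1 / 2 : ℝ) • (MkE_pull (MkE_inc true) - MkE_pull (MkE_inc false))
  let Q : C(K₀ × Bool, ℝ) →L[ℝ] X := P.comp R
  have hQa : ∀ (t : StrongDual ℝ X) (f : C(K₀ × Bool, ℝ)), L₀ t (MkE_odd f) = t (Q f) := by
    intro t f
    have h1 : MkE_odd f = fun y => (R f) y := by
      funext y
      show (f (y, true) - f (y, false)) / 2 = (1 / 2 : ℝ) * (f (y, true) - f (y, false))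
      ring
    rw [h1, hev]
    rfl
  have hQ1 : Q 1 = 0 := by
    have h1 : R 1 = 0 := by
      ext y
      show (1 / 2 : ℝ) * (1 - 1) = 0
      ring
    show P (R 1) = 0
    rw [h1, map_zero]
  obtain ⟨W, hW0, hWa, hWn, hWl, hWs⟩ := exists_was NS Φ hΦn hΦc Q hQ1
  have hone : ∀ t, L₀ t (MkE_odd fun _ : K₀ × Bool => 1) = 0 := by
    intro t
    have h1 : (MkE_odd fun _ : K₀ × Bool => 1) = fun y : K₀ => (0 : ℝ) * (fun _ : K₀ => (0 : ℝ)) y := by
      funext y
      unfold MkE_odd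
      ring
    rw [h1, hsmr 0 t (fun _ => (0 : ℝ)) ⟨0, fun _ => by simp⟩, zero_mul]
  refine ⟨K₀ × Bool, {
    toSys := {
    toNSys := NS
    Φ := Φ
    hΦ := hΦn
    L := fun t h => L₀ t (MkE_odd h)
    add_l := fun s t h hh => hadd s t _ (MkE_odd_bd hh)
    smul_l := fun c t h hh => hsm c t _ (MkE_odd_bd hh)
    add_r := ?_
    smul_r := ?_
    one := hone
    q := ‖P‖
    hq := norm_nonneg P
    bd := fun t h b hb hh => hbd t _ b hb fun y => MkE_odd_le (hh _) (hh _)
    ev := ?_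
    tight := ?_
    W := W
    W_nonneg := hW0
    W_add := hWa
    W_neg := hWn
    W_lip := ?_
    W_small := hWs
    }, net := ?_ }, rfl⟩
  · intro t h g hh hg
    rw [← haddr t _ _ (MkE_odd_bd hh) (MkE_odd_bd hg)]
    congr 1
    funext y
    unfold MkE_odd
    ring
  · intro c t h hh
    rw [← hsmr c t _ (MkE_odd_bd hh)]
    congr 1
    funext y
    unfold MkE_odd
    ring
  · intro t x
    have h1 : (MkE_odd fun y : K₀ × Bool => Φ y x) = fun y => J x y := by
      funext y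
      show (MkE_sg true * J x y - MkE_sg false * J x y) / 2 = J x y
      simp [MkE_sg]
    rw [h1, hev, hP]
  · intro t ε hε
    obtain ⟨Y, hY, H⟩ := htight t ε hε
    refine ⟨{p | p.1 ∈ Y}, ?_, fun h hh η hη hhY => ?_⟩
    · have h1 : TotallyBounded ((fun v : StrongDual ℝ X => -v) '' (φ '' Y)) :=
        hY.image uniformContinuous_neg
      refine (hY.union h1).subset ?_
      rintro _ ⟨⟨y, b⟩, hy, rfl⟩
      cases b
      · refine Or.inr ⟨φ y, ⟨y, hy, rfl⟩, ?_⟩
        show -φ y = MkE_sg false • φ y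
        exact (neg_one_smul ℝ (φ y)).symm
      · refine Or.inl ⟨y, hy, ?_⟩
        show φ y = MkE_sg true • φ y
        exact (one_smul ℝ (φ y)).symm
    · exact H _ (fun y => MkE_odd_le (hh _) (hh _)) η hη fun y hy =>
        MkE_odd_le (hhY (y, true) hy) (hhY (y, false) hy)
  · intro t f w hw hf
    have hc := lip_cont NS Φ hΦn hΦc hw hf
    have h1 := hWl t ⟨f, hc⟩ w hw hf
    rw [← hQa] at h1
    exact h1
  · intro ρ hρ
    obtain ⟨Z, -, hZ⟩ := isCompact_univ.elim_nhds_subcover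
      (fun z : K₀ × Bool => {y | NS.N (Φ y - Φ z) ≤ ρ})
      (fun z _ => MkE_near NS Φ hΦn hΦc hρ z)
    refine ⟨(Z : Set (K₀ × Bool)), Z.finite_toSet, fun y => ?_⟩
    obtain ⟨z, hz, hyz⟩ := mem_iUnion₂.1 (hZ (mem_univ y))
    exact ⟨z, hz, hyz⟩

end Pool.Agent.H84.TE
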