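import Pool.Agent.H84.TE.LimB
import Pool.Agent.H84.TE.HulE
import Pool.Agent.H84.TE.EndE
import Pool.Agent.H84.TE.MkE
import Pool.Agent.H84.TE.MetK
import Pool.Agent.H75.SG.Defs

/-!
# Module MainE: small dual ball => embedding with the constant `‖P‖ ‖J‖ + ε` (110 lines)

PROOF. `met_red` (with `sep_of_dual`) gives `K₁` metrizable, `J₁`, `P₁`. Then as in the proof of `thmC` in Pool/Agent/H84/TC/Main.lean (copy it): `c = ‖J₁‖ + κ`, `J' = c⁻¹ • J₁`, `P' = c • P₁`, `exists_sys2` gives `S` with `q = ‖P'‖ = c ‖P₁‖ ≤ (‖J‖ + κ) ‖P‖`; `gd_of_small` and `hS`: `Gd S {t | ‖t‖ ≤ 1}`; `end_mainE` with `θ` gives `A'`;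
`L = ↥(toWeakDual '' A')`, `T' x = (2+θ)⁻¹ • (a ↦ a x)`, the same choice of `κ`, `θ`.
-/

set_option autoImplicit false

open Set Filter Topology Pool.Agent.H84.TC

namespace Pool.Agent.H84.TE

theorem gd_of_small {X : Type} [NormedAddCommGroup X] [NormedSpace ℝ X] {K : Type} (S : Sys2 X K)
    {T : Set (X →L[ℝ] ℝ)} (h : Pool.Agent.H75.SG.Small T) : Gd S T := by
  induction h with
  | empty => exact gd_empty S
  | sub _ h2 ih => exact ih.mono h2
  | hull D _ ih => exact gd_hull ih D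
  | appr T h1 h2 ih => exact gd_approx fun ρ hρ => ⟨T ρ, ih ρ hρ, fun f hf => h2 ρ hρ f hf⟩
  | @lim f W M h1 h2 h3 ih =>
    refine (gd_lim S ih (r := M) (fun n t ht => h2 n t ht) f fun x ε hε => ?_).mono ?_
    · obtain ⟨n₀, h4⟩ := h3 x ε hε
      exact Filter.eventually_atTop.2 ⟨n₀, fun n hn t ht => h4 n hn t ht⟩
    · rw [Set.insert_eq]

theorem main {X K : Type} [NormedAddCommGroup X] [NormedSpace ℝ X] [TopologicalSpace K] [CompactSpace K]
    [T2Space K] (J : X →L[ℝ] C(K, ℝ)) (P : C(K, ℝ) →L[ℝ] X)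
    (hsep : TopologicalSpace.SeparableSpace (X →L[ℝ] ℝ)) (hPJ : ∀ x, P (J x) = x)
    (hS : Pool.Agent.H75.SG.SmallBall X) (ε : ℝ) (hε : 0 < ε) :
    ∃ (L : Type) (_ : TopologicalSpace L) (_ : CompactSpace L) (_ : T2Space L), Countable L ∧
      ∃ S : X →L[ℝ] C(L, ℝ), ∀ x, ‖S x‖ ≤ ‖x‖ ∧ ‖x‖ ≤ (‖P‖ * ‖J‖ + ε) * ‖S x‖ := by
  have hsep' : TopologicalSpace.SeparableSpace (StrongDual ℝ X) := hsep
  have hsepX : TopologicalSpace.SeparableSpace X := sep_of_dual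
  obtain ⟨K₁, _, _, _, J₁, P₁, hP₁, hJle, hPle⟩ := met_red J P hPJ
  have hJ0 := norm_nonneg J₁
  have hP0 := norm_nonneg P₁
  obtain ⟨κ, hκ0, hκ⟩ : ∃ κ : ℝ, 0 < κ ∧ κ * ‖P₁‖ ≤ ε / 2 := by
    refine ⟨ε / (2 * (‖P₁‖ + 1)), by positivity, ?_⟩
    rw [div_mul_eq_mul_div, div_le_div_iff₀ (by positivity) (by norm_num)]
    nlinarith
  obtain ⟨c, hc⟩ : ∃ c : ℝ, c = ‖J₁‖ + κ := ⟨_, rfl⟩
  have hc0 : 0 < c := by linarith
  have hJ' : ‖c⁻¹ • J₁‖ ≤ 1 := by
    refine ContinuousLinearMap.opNorm_le_bound _ zero_le_one fun x => ?_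
    have h1 := J₁.le_opNorm x
    have h2 : ‖(c⁻¹ • J₁) x‖ = c⁻¹ * ‖J₁ x‖ := by
      rw [smul_apply, norm_smul, norm_inv, Real.norm_of_nonneg hc0.le]
    rw [h2, one_mul, inv_mul_le_iff₀ hc0]
    refine h1.trans (mul_le_mul_of_nonneg_right ?_ (norm_nonneg x))
    linarith
  have hP' : ∀ x, (c • P₁) ((c⁻¹ • J₁) x) = x := by
    intro x
    rw [smul_apply, smul_apply, map_smul, hP₁, smul_smul,
      mul_inv_cancel₀ hc0.ne', one_smul]
  obtain ⟨K', S, hSe⟩ := exists_sys2 (c⁻¹ • J₁) (c • P₁) hP' hJ'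
  have hSq : S.q ≤ c * ‖P₁‖ := by
    rw [hSe]
    refine ContinuousLinearMap.opNorm_le_bound _ (by positivity) fun f => ?_
    have h1 := P₁.le_opNorm f
    rw [smul_apply, norm_smul, Real.norm_of_nonneg hc0.le, mul_assoc]
    exact mul_le_mul_of_nonneg_left h1 hc0.le
  have hq := S.hq
  obtain ⟨B, hB⟩ : ∃ B : ℝ, B = ‖P‖ * ‖J‖ + ε := ⟨_, rfl⟩
  have hBε : ε ≤ B := by
    have := mul_nonneg (norm_nonneg P) (norm_nonneg J)
    linarith
  have hB0 : 0 < B := lt_of_lt_of_le hε hBε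
  have hqB : S.q ≤ B - ε / 2 := by
    rw [hc] at hSq
    rw [hB]
    have h1 : ‖J₁‖ * ‖P₁‖ ≤ ‖J‖ * ‖P‖ := mul_le_mul hJle hPle hP0 (norm_nonneg J)
    nlinarith
  obtain ⟨θ, hθ0, hθ1, hθ2⟩ : ∃ θ : ℝ, 0 < θ ∧ 0 < 1 - θ - S.q * θ / 2 ∧
      S.q * (1 + θ / 2) ≤ B * (1 - θ - S.q * θ / 2) := by
    have hd : 0 < S.q + 2 * B + B * S.q := by positivity
    refine ⟨ε / (S.q + 2 * B + B * S.q), by positivity, ?_, ?_⟩
    · have e : 1 - ε / (S.q + 2 * B + B * S.q) - S.q * (ε / (S.q + 2 * B + B * S.q)) / 2 =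
          (2 * (S.q + 2 * B + B * S.q) - 2 * ε - S.q * ε) / (2 * (S.q + 2 * B + B * S.q)) := by
        field_simp
      rw [e]
      apply div_pos _ (by positivity)
      nlinarith [mul_le_mul_of_nonneg_left hBε hq]
    · have e : B * (1 - ε / (S.q + 2 * B + B * S.q) - S.q * (ε / (S.q + 2 * B + B * S.q)) / 2) -
          S.q * (1 + ε / (S.q + 2 * B + B * S.q) / 2) = B - S.q - ε / 2 := by
        field_simp
        ring
      linarith
  obtain ⟨A', hA', hA'1, hA'2⟩ := end_mainE S (gd_of_small S hS) hθ0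
  have hcomp : CompactSpace ↥(StrongDual.toWeakDual '' A') :=
    isCompact_iff_compactSpace.1 hA'.2.1
  have h2θ : 0 < 2 + θ := by linarith
  obtain ⟨R, hR1, hR2⟩ : ∃ R : X →L[ℝ] C(↥(StrongDual.toWeakDual '' A'), ℝ),
      (∀ x, ‖R x‖ ≤ ‖x‖) ∧ ∀ x, ∀ l, (R x) l = (2 + θ)⁻¹ * (l.1 x) := by
    have hcont : ∀ x : X, Continuous fun l : ↥(StrongDual.toWeakDual '' A') =>
        (2 + θ)⁻¹ * (l.1 x) := fun x =>
      continuous_const.mul ((WeakDual.eval_continuous x).comp continuous_subtype_val)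
    have hbd : ∀ x : X, ‖(⟨fun l => (2 + θ)⁻¹ * (l.1 x), hcont x⟩ :
        C(↥(StrongDual.toWeakDual '' A'), ℝ))‖ ≤ 1 * ‖x‖ := by
      intro x
      rw [one_mul, ContinuousMap.norm_le _ (norm_nonneg x)]
      rintro ⟨l, a, ha, rfl⟩
      have h1 := a.le_opNorm x
      have h2 := hA'1 a ha
      have h3 : ‖a x‖ ≤ (2 + θ) * ‖x‖ :=
        h1.trans (mul_le_mul_of_nonneg_right h2 (norm_nonneg x))
      have h4 : ‖(2 + θ)⁻¹ * a x‖ ≤ ‖x‖ := by
        rw [norm_mul, norm_inv, Real.norm_of_nonneg h2θ.le, inv_mul_le_iff₀ h2θ]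
        exact h3
      exact h4
    refine ⟨LinearMap.mkContinuous
      { toFun := fun x => ⟨fun l => (2 + θ)⁻¹ * (l.1 x), hcont x⟩
        map_add' := fun x y => by
          ext l
          have h := map_add l.1 x y
          simp only [ContinuousMap.coe_mk, ContinuousMap.add_apply]
          rw [h, mul_add]
        map_smul' := fun r x => by
          ext l
          have h := map_smul l.1 r x
          simp only [ContinuousMap.coe_mk, ContinuousMap.smul_apply, RingHom.id_apply]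
          rw [h, smul_eq_mul, smul_eq_mul]
          ring } 1 hbd, fun x => ?_, fun x l => rfl⟩
    have h := hbd x
    rw [one_mul] at h
    exact h
  refine ⟨↥(StrongDual.toWeakDual '' A'), inferInstance, hcomp, inferInstance,
    (hA'.1.image _).to_subtype, R, fun x => ⟨hR1 x, ?_⟩⟩
  rw [← hB]
  have hx := hA'2 x ((2 + θ) * ‖R x‖) (by positivity) (fun a ha => by
    have h1 := (R x).norm_coe_le_norm ⟨StrongDual.toWeakDual a, a, ha, rfl⟩
    rw [hR2, norm_mul, norm_inv, Real.norm_of_nonneg h2θ.le, inv_mul_le_iff₀ h2θ] at h1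
    exact h1)
  have h3 : (1 - θ - S.q * θ / 2) * ‖x‖ ≤ (1 - θ - S.q * θ / 2) * (B * ‖R x‖) := by
    have h4 := mul_le_mul_of_nonneg_right hθ2 (norm_nonneg (R x))
    nlinarith
  exact le_of_mul_le_mul_left h3 hθ1

end Pool.Agent.H84.TE
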