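import Pool.Agent.H84.TE.Defs

/-!
# Module PtE: points are good (110 lines; the proof of Pool/Agent/H84/TC/Pt.lean `pt_ctrl` with small changes)

PROOF. `r = ‖t‖`. Let `ε > 0`, `Y₀` finite. `Y₁` from `S.tight t ε`, `Y = Y₁ ∪ Y₀`: `Φ '' Y` is totally bounded (`Φ '' Y₀` finite). `E y z := y ∈ Y ∧ z ∈ Y`, `C = q ‖t‖`. SMALL: as in `pt_ctrl` (finite set of differences of the centers of a `θ/2`-net, `cc_finite`). CONTROL: let `h`, `δ`, `w` be given.
If `Y` is empty: `g = 0` (`tight` with `η = 0`: `|L t h| ≤ ε`; `Y₀` is empty). Otherwise `g y = min 1 (sInf over z ∈ Y of h z + w d y z)`: `|g| ≤ 1`, `w`-Lipschitz, `h y - δ ≤ g y ≤ h y` for `y ∈ Y` (so `|h - g| ≤ δ ≤ 2δ + ε(1+w)` on `Y₀`); `|h - g| ≤ 2` everywhere, so by `tight` `|L t (h - g)| ≤ q ‖t‖ δ + ε ≤ ε (1+w) + C δ`.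
-/

set_option autoImplicit false

open Set Filter Topology Pool.Agent.H84.TC

namespace Pool.Agent.H84.TE

variable {X : Type} [NormedAddCommGroup X] [NormedSpace ℝ X] {K : Type}

private lemma PtE_min {a b c : ℝ} (h1 : a ≤ b + c) (h2 : b ≤ a + c) (hc : 0 ≤ c) :
    |min 1 a - min 1 b| ≤ c := by
  rw [abs_le]
  constructor
  · have : min 1 b ≤ min 1 a + c := by
      rcases le_total 1 a with h | h
      · rw [min_eq_left h]
        exact (min_le_left _ _).trans (by linarith)
      · rw [min_eq_right h]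
        exact (min_le_right _ _).trans h2
    linarith
  · have : min 1 a ≤ min 1 b + c := by
      rcases le_total 1 b with h | h
      · rw [min_eq_left h]
        exact (min_le_left _ _).trans (by linarith)
      · rw [min_eq_right h]
        exact (min_le_right _ _).trans h1
    linarith

private lemma PtE_small (S : Sys X K) {Y : Set K} (hY : TotallyBounded (S.Φ '' Y)) :
    Small S (fun y z => y ∈ Y ∧ z ∈ Y) := by
  refine ⟨fun y z h => ⟨h.2, h.1⟩, fun θ hθ => ?_⟩
  obtain ⟨G, hG, hGc⟩ := Metric.totallyBounded_iff.1 hY (θ / 2) (by linarith)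
  refine ⟨Set.image2 (fun a b => a - b) G G, cc_finite (hG.image2 _ hG), fun y z hyz => ?_⟩
  obtain ⟨g, hg, hgy⟩ := Set.mem_iUnion₂.1 (hGc (Set.mem_image_of_mem _ hyz.1))
  obtain ⟨g', hg', hgz⟩ := Set.mem_iUnion₂.1 (hGc (Set.mem_image_of_mem _ hyz.2))
  refine ⟨g - g', ⟨g, hg, g', hg', rfl⟩, ?_⟩
  rw [Metric.mem_ball, dist_eq_norm] at hgy hgz
  have h1 : S.Φ y - S.Φ z - (g - g') = (S.Φ y - g) - (S.Φ z - g') := by abel
  rw [h1]
  refine (norm_sub_le _ _).trans ?_
  linarith

theorem gd_point (S : Sys2 X K) (t : StrongDual ℝ X) : Gd S {t} := by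
  refine ⟨⟨‖t‖, fun f hf => by rw [Set.mem_singleton_iff.1 hf]⟩, fun ε hε Y₀ hY₀ => ?_⟩
  obtain ⟨Y₁, hY₁, hT⟩ := S.tight t ε hε
  set Y : Set K := Y₁ ∪ Y₀ with hYdef
  have hY : TotallyBounded (S.Φ '' Y) := by
    rw [hYdef, Set.image_union]
    exact hY₁.union (hY₀.image _).totallyBounded
  refine ⟨fun y z => y ∈ Y ∧ z ∈ Y, PtE_small S.toSys hY, S.q * ‖t‖,
    mul_nonneg S.hq (norm_nonneg _), ?_⟩
  intro h hh δ w hδ hw hE
  have hεw : 0 ≤ ε * w := mul_nonneg hε.le hw
  have hq : 0 ≤ S.q * ‖t‖ * δ := mul_nonneg (mul_nonneg S.hq (norm_nonneg _)) hδ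
  rcases Y.eq_empty_or_nonempty with hY0 | hYn
  · have hY₁e : Y₁ = ∅ := (Set.union_empty_iff.1 hY0).1
    have hY₀e : Y₀ = ∅ := (Set.union_empty_iff.1 hY0).2
    refine ⟨fun _ => 0, fun y => by simp, fun y z => ?_, fun y hy => ?_, fun f hf => ?_⟩
    · rw [sub_zero, abs_zero]
      exact mul_nonneg hw (S.d_nonneg y z)
    · rw [hY₀e] at hy
      exact absurd hy (Set.notMem_empty y)
    · rw [Set.mem_singleton_iff.1 hf]
      have h1 := hT (fun y => h y - 0) (fun y => by
        rw [sub_zero]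
        exact (hh y).trans (by norm_num)) 0 le_rfl (by
        intro y hy
        rw [hY₁e] at hy
        exact absurd hy (Set.notMem_empty y))
      linarith
  · haveI : Nonempty Y := hYn.to_subtype
    set F : K → ℝ := fun y => ⨅ z : Y, (h z + w * S.d y z) with hF
    have hlow : ∀ y (z : Y), -1 ≤ h z + w * S.d y z := by
      intro y z
      have h1 := (abs_le.1 (hh z)).1
      have h2 := mul_nonneg hw (S.d_nonneg y z)
      linarith
    have hbdd : ∀ y, BddBelow (Set.range fun z : Y => h z + w * S.d y z) := by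
      intro y
      refine ⟨-1, ?_⟩
      rintro _ ⟨z, rfl⟩
      exact hlow y z
    have hF1 : ∀ y, -1 ≤ F y := fun y => le_ciInf fun z => hlow y z
    have hF2 : ∀ y z, F y ≤ F z + w * S.d y z := by
      intro y z
      have h1 : F y - w * S.d y z ≤ F z := by
        refine le_ciInf fun p => ?_
        have h2 : F y ≤ h p + w * S.d y p := ciInf_le (hbdd y) p
        have h3 := mul_le_mul_of_nonneg_left (S.d_tri y z p) hw
        rw [mul_add] at h3
        linarith
      linarith
    have hF3 : ∀ y ∈ Y, F y ≤ h y := by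
      intro y hy
      have h2 : F y ≤ h y + w * S.d y y := ciInf_le (hbdd y) ⟨y, hy⟩
      rw [S.d_self, mul_zero, add_zero] at h2
      exact h2
    have hF4 : ∀ y ∈ Y, h y - δ ≤ F y := by
      intro y hy
      refine le_ciInf fun p => ?_
      have h1 := (abs_le.1 (hE y p ⟨hy, p.2⟩)).2
      linarith
    set g : K → ℝ := fun y => min 1 (F y) with hg
    have hg1 : ∀ y, |g y| ≤ 1 := by
      intro y
      rw [abs_le]
      exact ⟨le_min (by norm_num) (hF1 y), min_le_left _ _⟩
    have hg2 : ∀ y z, |g y - g z| ≤ w * S.d y z := by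
      intro y z
      have h3 := hF2 z y
      rw [S.d_comm z y] at h3
      exact PtE_min (hF2 y z) h3 (mul_nonneg hw (S.d_nonneg y z))
    have hg3 : ∀ y ∈ Y, |h y - g y| ≤ δ := by
      intro y hy
      have h4 := hF3 y hy
      have h5 := hF4 y hy
      have h6 := (abs_le.1 (hh y)).2
      have h7 : g y ≤ h y := (min_le_right _ _).trans h4
      have h8 : h y - δ ≤ g y := le_min (by linarith) h5
      rw [abs_le]
      constructor <;> linarith
    refine ⟨g, hg1, hg2, fun y hy => ?_, fun f hf => ?_⟩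
    · have h1 := hg3 y (Or.inr hy)
      linarith
    · rw [Set.mem_singleton_iff.1 hf]
      have h1 := hT (fun y => h y - g y) (fun y => by
        refine (abs_sub _ _).trans ?_
        linarith [hh y, hg1 y]) δ hδ fun y hy => hg3 y (Or.inl hy)
      linarith

theorem gd_empty (S : Sys2 X K) : Gd S ∅ :=
  (gd_point S 0).mono (Set.empty_subset _)

end Pool.Agent.H84.TE
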