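import Pool.Agent.H75.SG.Glue

/-!
# Module SigU: countable coverings by small sets

A weak* closed bounded set `F` in the dual of a separable normed space which is covered by countably
many weak* closed small sets `T n` is small.

PROOF. `F` is compact and metrizable (weak*). Let `O` be the union of the relatively open subsets of
`F` which are small and `C = F \ O`. If `C` is not empty, Baire gives `n` and an open `V` with
`∅ ≠ V ∩ C ⊆ T n`. Take `p ∈ V ∩ C` and a closed ball `D` (in `F`) around `p` contained in `V`. Then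
`D ∩ C` is small and the shells `{z ∈ D | 1/(k+2) ≤ dist (z, C) ≤ 1/(k+1)}` are compact subsets of `O`,
so small; by `glue` the set `D` is small, so `p ∈ O`, a contradiction. So `F = O` is a finite union
of small sets.
-/

set_option autoImplicit false

namespace Pool.Agent.H84.TE

open Set Filter Topology TopologicalSpace Pool.Agent.H75.SG

variable {X : Type} [NormedAddCommGroup X] [NormedSpace ℝ X]

/-- the functionals belonging to a set of points of `F` -/
private def SigU_im (F : Set (WeakDual ℝ X)) (U : Set F) : Set (X →L[ℝ] ℝ) :=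
  {t | ∃ z ∈ U, t = WeakDual.toStrongDual (z : WeakDual ℝ X)}

private theorem SigU_im_mono {F : Set (WeakDual ℝ X)} {U V : Set F} (h : U ⊆ V) :
    SigU_im F U ⊆ SigU_im F V := by
  rintro t ⟨z, hz, rfl⟩
  exact ⟨z, h hz, rfl⟩

private theorem SigU_im_union {F : Set (WeakDual ℝ X)} (U V : Set F) :
    SigU_im F (U ∪ V) ⊆ SigU_im F U ∪ SigU_im F V := by
  rintro t ⟨z, hz, rfl⟩
  rcases hz with hz | hz
  · exact Or.inl ⟨z, hz, rfl⟩
  · exact Or.inr ⟨z, hz, rfl⟩

/-- compact sets covered by small relatively open sets are small -/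
private theorem SigU_compact {F : Set (WeakDual ℝ X)} {Q : Set F} (hQ : IsCompact Q)
    (h : ∀ z ∈ Q, ∃ U : Set F, IsOpen U ∧ z ∈ U ∧ H75.SG.Small (SigU_im F U)) :
    H75.SG.Small (SigU_im F Q) := by
  refine hQ.induction_on (p := fun S => H75.SG.Small (SigU_im F S)) ?_ ?_ ?_ ?_
  · refine H75.SG.Small.empty.sub ?_
    rintro t ⟨z, hz, _⟩
    exact hz.elim
  · intro S S' hSS' hS'
    exact hS'.sub (SigU_im_mono hSS')
  · intro S S' hS hS'
    exact (hS.union hS').sub (SigU_im_union S S')
  · intro z hz
    obtain ⟨U, hU, hzU, hsm⟩ := h z hz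
    exact ⟨U, mem_nhdsWithin_of_mem_nhds (hU.mem_nhds hzU), hsm⟩

private theorem SigU_tendsto {ι : Type} {l : Filter ι} {F : Set (WeakDual ℝ X)} {z : ι → F} {u : F}
    (h : ∀ x : X, Tendsto (fun i => (z i : WeakDual ℝ X) x) l (𝓝 ((u : WeakDual ℝ X) x))) :
    Tendsto z l (𝓝 u) := by
  rw [tendsto_subtype_rng]
  exact tendsto_iff_forall_eval_tendsto_topDualPairing.mpr h

theorem sigU [SeparableSpace X] {F : Set (WeakDual ℝ X)} (hF : IsClosed F) {r : ℝ}
    (hr : ∀ f ∈ F, ‖WeakDual.toStrongDual f‖ ≤ r) (T : ℕ → Set (X →L[ℝ] ℝ))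
    (hTc : ∀ n, IsClosed {f : WeakDual ℝ X | WeakDual.toStrongDual f ∈ T n})
    (hT : ∀ n, H75.SG.Small (T n)) (hFT : ∀ f ∈ F, ∃ n, WeakDual.toStrongDual f ∈ T n) :
    H75.SG.Small {t | StrongDual.toWeakDual t ∈ F} := by
  classical
  have hK : IsCompact F := by
    refine IsCompact.of_isClosed_subset (WeakDual.isCompact_closedBall (0 : X →L[ℝ] ℝ) r) hF ?_
    intro f hf
    rw [Set.mem_preimage, mem_closedBall_zero_iff]
    exact hr _ hf
  have hcomp : CompactSpace F := isCompact_iff_compactSpace.mp hK
  have hmet : MetrizableSpace F := WeakDual.metrizable_of_isCompact ℝ X F hK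
  let _ := metrizableSpaceMetric F
  let O : Set F := {z | ∃ U : Set F, IsOpen U ∧ z ∈ U ∧ H75.SG.Small (SigU_im F U)}
  have hO : IsOpen O := by
    rw [isOpen_iff_mem_nhds]
    rintro z ⟨U, hU, hzU, hs⟩
    exact Filter.mem_of_superset (hU.mem_nhds hzU) fun z' hz' => ⟨U, hU, hz', hs⟩
  have hall : O = univ := by
    by_contra hne
    set C : Set F := Oᶜ with hC
    have hCcl : IsClosed C := hO.isClosed_compl
    have hCne : C.Nonempty := by
      rw [hC, Set.nonempty_compl]
      exact hne
    have hCs : CompactSpace C := isCompact_iff_compactSpace.mp hCcl.isCompact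
    have : Nonempty C := hCne.to_subtype
    have hbaire := nonempty_interior_of_iUnion_of_closed
      (f := fun n : ℕ => {z : C | WeakDual.toStrongDual ((z : F) : WeakDual ℝ X) ∈ T n})
      (fun n => (hTc n).preimage (continuous_subtype_val.comp continuous_subtype_val))
      (by
        rw [Set.eq_univ_iff_forall]
        intro z
        obtain ⟨n, hn⟩ := hFT _ (z : F).2
        exact Set.mem_iUnion.mpr ⟨n, hn⟩)
    obtain ⟨n, ⟨p, hpC⟩, hp⟩ := hbaire
    obtain ⟨V', hV'sub, hV', hpV'⟩ := mem_interior.mp hp
    obtain ⟨V, hV, rfl⟩ := isOpen_induced_iff.mp hV'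
    have hpV : p ∈ V := hpV'
    have hVC : ∀ z ∈ V, z ∈ C → WeakDual.toStrongDual (z : WeakDual ℝ X) ∈ T n := by
      intro z hz hzC
      exact hV'sub (show (⟨z, hzC⟩ : C) ∈ Subtype.val ⁻¹' V from hz)
    obtain ⟨ρ, hρ, hball⟩ := Metric.isOpen_iff.mp hV p hpV
    set D : Set F := Metric.closedBall p (ρ / 2) with hD
    have hDV : D ⊆ V := (Metric.closedBall_subset_ball (half_lt_self hρ)).trans hball
    have hDc : IsClosed D := Metric.isClosed_closedBall
    have hA : H75.SG.Small (SigU_im F (D ∩ C)) := by
      refine (hT n).sub ?_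
      rintro t ⟨z, hz, rfl⟩
      exact hVC z (hDV hz.1) hz.2
    let W : ℕ → Set F := fun k => {z | z ∈ D ∧ 1 / ((k : ℝ) + 2) ≤ Metric.infDist z C ∧
      (k = 0 ∨ Metric.infDist z C ≤ 1 / ((k : ℝ) + 1))}
    have hcd : Continuous fun z : F => Metric.infDist z C := Metric.continuous_infDist_pt C
    have hWcl : ∀ k, IsClosed (W k) := by
      intro k
      have h1 : IsClosed {z : F | 1 / ((k : ℝ) + 2) ≤ Metric.infDist z C} :=
        isClosed_le continuous_const hcd
      have h2 : IsClosed {z : F | k = 0 ∨ Metric.infDist z C ≤ 1 / ((k : ℝ) + 1)} := by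
        by_cases hk : k = 0
        · simp [hk]
        · simp only [hk, false_or]
          exact isClosed_le hcd continuous_const
      exact hDc.inter (h1.inter h2)
    have hWO : ∀ k, ∀ z ∈ W k, z ∈ O := by
      intro k z hz
      by_contra hzO
      have h1 : Metric.infDist z C = 0 := Metric.infDist_zero_of_mem (show z ∈ C from hzO)
      have h2 := hz.2.1
      rw [h1] at h2
      have : (0 : ℝ) < 1 / ((k : ℝ) + 2) := by positivity
      linarith
    have hWs : ∀ k, H75.SG.Small (SigU_im F (W k)) := fun k =>
      SigU_compact (hWcl k).isCompact (hWO k)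
    have hglue := glue hA (fun k => SigU_im F (W k)) hWs (M := r)
      (by
        rintro t ⟨z, _, rfl⟩
        exact hr _ z.2)
      (by
        rintro k t ⟨z, _, rfl⟩
        exact hr _ z.2)
      (by
        intro φ t u hφ ht _ hlim
        choose z hz htz using ht
        have hlim' : ∀ x : X, Tendsto (fun i => ((z i : F) : WeakDual ℝ X) x) (hyperfilter ℕ)
            (𝓝 ((StrongDual.toWeakDual u) x)) := by
          intro x
          refine (hlim x).congr ?_
          intro i
          rw [htz i]
          rfl
        have hu1 : Tendsto (fun i => ((z i : F) : WeakDual ℝ X)) (hyperfilter ℕ)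
            (𝓝 (StrongDual.toWeakDual u)) :=
          tendsto_iff_forall_eval_tendsto_topDualPairing.mpr hlim'
        have huF : StrongDual.toWeakDual u ∈ F :=
          hF.mem_of_tendsto hu1 (Eventually.of_forall fun i => (z i).2)
        have hz' : Tendsto z (hyperfilter ℕ) (𝓝 (⟨StrongDual.toWeakDual u, huF⟩ : F)) :=
          SigU_tendsto hlim'
        have huD : (⟨StrongDual.toWeakDual u, huF⟩ : F) ∈ D :=
          hDc.mem_of_tendsto hz' (Eventually.of_forall fun i => (hz i).1)
        have h1 : Tendsto (fun i => Metric.infDist (z i) C) (hyperfilter ℕ)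
            (𝓝 (Metric.infDist (⟨StrongDual.toWeakDual u, huF⟩ : F) C)) :=
          (hcd.tendsto _).comp hz'
        have h2 : Tendsto (fun i => Metric.infDist (z i) C) (hyperfilter ℕ) (𝓝 0) := by
          refine Tendsto.mono_left ?_ Nat.hyperfilter_le_atTop
          refine squeeze_zero' (Eventually.of_forall fun i => Metric.infDist_nonneg) ?_
            tendsto_one_div_add_atTop_nhds_zero_nat
          filter_upwards [eventually_ge_atTop 1] with i hi
          have h3 : φ i ≠ 0 := by
            have := hφ i
            omega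
          rcases (hz i).2.2 with h4 | h4
          · exact absurd h4 h3
          · refine h4.trans ?_
            have h5 : (i : ℝ) ≤ φ i := by exact_mod_cast hφ i
            gcongr
        have h3 := tendsto_nhds_unique h1 h2
        have huC : (⟨StrongDual.toWeakDual u, huF⟩ : F) ∈ C :=
          (hCcl.mem_iff_infDist_zero hCne).mpr h3
        exact ⟨_, ⟨huD, huC⟩, rfl⟩)
    have hDs : H75.SG.Small (SigU_im F D) := by
      refine (hA.union hglue).sub ?_
      rintro t ⟨z, hz, rfl⟩
      by_cases hzC : z ∈ C
      · exact Or.inl ⟨z, ⟨hz, hzC⟩, rfl⟩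
      · right
        have h1 : 0 < Metric.infDist z C := by
          rcases (Metric.infDist_nonneg (x := z) (s := C)).lt_or_eq with h | h
          · exact h
          · exact absurd ((hCcl.mem_iff_infDist_zero hCne).mpr h.symm) hzC
        have hex : ∃ k : ℕ, 1 / ((k : ℝ) + 2) ≤ Metric.infDist z C := by
          obtain ⟨k, hk⟩ := exists_nat_one_div_lt h1
          refine ⟨k, le_trans ?_ hk.le⟩
          gcongr
          linarith
        let k := Nat.find hex
        have hk : 1 / ((k : ℝ) + 2) ≤ Metric.infDist z C := Nat.find_spec hex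
        refine Set.mem_iUnion.mpr ⟨k, z, ⟨hz, hk, ?_⟩, rfl⟩
        by_cases hk0 : k = 0
        · exact Or.inl hk0
        · right
          have h2 := Nat.find_min hex (m := k - 1) (by omega)
          push Not at h2
          have h3 : (((k - 1 : ℕ) : ℝ) + 2) = (k : ℝ) + 1 := by
            have : ((k - 1 : ℕ) : ℝ) + 1 = (k : ℝ) := by
              exact_mod_cast (show k - 1 + 1 = k by omega)
            linarith
          rw [h3] at h2
          exact h2.le
    have hpO : p ∈ O := ⟨Metric.ball p (ρ / 2), Metric.isOpen_ball,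
      Metric.mem_ball_self (by positivity),
      hDs.sub (SigU_im_mono Metric.ball_subset_closedBall)⟩
    exact hpC hpO
  have hfin : H75.SG.Small (SigU_im F univ) := by
    refine SigU_compact isCompact_univ fun z _ => ?_
    have : z ∈ O := by
      rw [hall]
      trivial
    exact this
  refine hfin.sub ?_
  intro t ht
  exact ⟨⟨StrongDual.toWeakDual t, ht⟩, trivial, rfl⟩

end Pool.Agent.H84.TE
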