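import Pool.Agent.H84.TE.PtE

/-!
# Module UniE: finite unions (90 lines)

PROOF. `F`, `G` bounded by `r ≥ 0`. Let `ε > 0`, `Y₀` finite. `κ = min (ε/4) (ε / (8 (q r + 1)))`, `Y₁ = Y₀ ∪ Z`, `Z` finite from `S.net κ`. `E₁, C₁` for `F`, `E₂, C₂` for `G`, both with the error `κ` and `Y₁`. `E = E₁ ∨ E₂` (`small_or`), `C = max C₁ (C₂ + 4 q r)`. Let `h`, `δ`, `w` be given, `g₁`, `g₂` from the two controls; take `g = g₁`.
`|g₁ - g₂| ≤ 4δ + 2κ(1+w)` on `Z`, and both are `w`-Lipschitz, so `|g₁ - g₂| ≤ 4δ + 2κ(1+w) + 2wκ ≤ 4δ + 4κ(1+w)` everywhere. For `t ∈ G`: `L t (h - g₁) = L t (h - g₂) + L t (g₂ - g₁)` (`Sys.sub_r`), `|L t (g₂ - g₁)| ≤ q r (4δ + 4κ(1+w))` (`Sys.bd`), total `≤ (κ + 4 q r κ)(1+w) + (C₂ + 4 q r) δ ≤ ε (1+w) + C δ`.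
-/

set_option autoImplicit false

open Set Filter Topology Pool.Agent.H84.TC

namespace Pool.Agent.H84.TE

variable {X : Type} [NormedAddCommGroup X] [NormedSpace ℝ X] {K : Type}

private lemma UniE_lip {S : Sys2 X K} {f g : K → ℝ} {w κ b : ℝ} (hw : 0 ≤ w)
    (hf : ∀ y z, |f y - f z| ≤ w * S.d y z) (hg : ∀ y z, |g y - g z| ≤ w * S.d y z)
    {Z : Set K} (hZ : ∀ y, ∃ z ∈ Z, S.N (S.Φ y - S.Φ z) ≤ κ)
    (hb : ∀ z ∈ Z, |g z - f z| ≤ b) (y : K) : |g y - f y| ≤ b + 2 * (w * κ) := by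
  obtain ⟨z, hz, hd⟩ := hZ y
  have h0 : S.d y z ≤ κ := hd
  have h1 := hf y z
  have h2 := hg y z
  have h3 := hb z hz
  have h4 : w * S.d y z ≤ w * κ := mul_le_mul_of_nonneg_left h0 hw
  have e : g y - f y = (g y - g z) + (g z - f z) - (f y - f z) := by ring
  rw [e]
  have h5 := abs_sub ((g y - g z) + (g z - f z)) (f y - f z)
  have h6 := abs_add_le (g y - g z) (g z - f z)
  linarith

theorem gd_union {S : Sys2 X K} {F G : Set (StrongDual ℝ X)} (hF : Gd S F) (hG : Gd S G) :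
    Gd S (F ∪ G) := by
  obtain ⟨⟨r1, hr1⟩, hF2⟩ := hF
  obtain ⟨⟨r2, hr2⟩, hG2⟩ := hG
  refine ⟨⟨max r1 r2, ?_⟩, ?_⟩
  · rintro t (ht | ht)
    · exact (hr1 t ht).trans (le_max_left _ _)
    · exact (hr2 t ht).trans (le_max_right _ _)
  intro ε hε Y₀ hY
  set r : ℝ := max r2 0 with hr
  have hr0 : 0 ≤ r := le_max_right _ _
  have hrG : ∀ t ∈ G, ‖t‖ ≤ r := fun t ht => (hr2 t ht).trans (le_max_left _ _)
  have hq : 0 ≤ S.q := S.hq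
  have hqr : 0 ≤ S.q * r := mul_nonneg hq hr0
  have h8 : 0 < 8 * (S.q * r + 1) := by linarith
  set κ : ℝ := min (ε / 4) (ε / (8 * (S.q * r + 1))) with hκ
  have hκ0 : 0 < κ := lt_min (by linarith) (div_pos hε h8)
  have hκ1 : κ ≤ ε / 4 := min_le_left _ _
  have hκ2 : κ * (8 * (S.q * r + 1)) ≤ ε := by
    have h := min_le_right (ε / 4) (ε / (8 * (S.q * r + 1)))
    rw [← hκ] at h
    exact (le_div_iff₀ h8).1 h
  obtain ⟨Z, hZf, hZ⟩ := S.net κ hκ0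
  obtain ⟨E₁, hE1, C₁, hC1, hc1⟩ := hF2 κ hκ0 (Y₀ ∪ Z) (hY.union hZf)
  obtain ⟨E₂, hE2, C₂, hC2, hc2⟩ := hG2 κ hκ0 (Y₀ ∪ Z) (hY.union hZf)
  refine ⟨fun y z => E₁ y z ∨ E₂ y z, small_or hE1 hE2, max C₁ (C₂ + 4 * (S.q * r)),
    hC1.trans (le_max_left _ _), ?_⟩
  intro h hh δ w hδ hw hE
  obtain ⟨g₁, a1, a2, a3, a4⟩ := hc1 h hh δ w hδ hw fun y z hyz => hE y z (Or.inl hyz)
  obtain ⟨g₂, b1, b2, b3, b4⟩ := hc2 h hh δ w hδ hw fun y z hyz => hE y z (Or.inr hyz)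
  have h1w : 0 ≤ 1 + w := by linarith
  have hκε : κ * (1 + w) ≤ ε * (1 + w) := mul_le_mul_of_nonneg_right (by linarith) h1w
  refine ⟨g₁, a1, a2, fun y hy => (a3 y (Or.inl hy)).trans (by linarith), ?_⟩
  rintro t (ht | ht)
  · refine (a4 t ht).trans ?_
    have h5 : C₁ * δ ≤ max C₁ (C₂ + 4 * (S.q * r)) * δ :=
      mul_le_mul_of_nonneg_right (le_max_left _ _) hδ
    linarith
  · have hz : ∀ z ∈ Z, |g₂ z - g₁ z| ≤ 4 * δ + 2 * (κ * (1 + w)) := by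
      intro z hz
      have h5 := a3 z (Or.inr hz)
      have h6 := b3 z (Or.inr hz)
      have e : g₂ z - g₁ z = (h z - g₁ z) - (h z - g₂ z) := by ring
      rw [e]
      have h7 := abs_sub (h z - g₁ z) (h z - g₂ z)
      linarith
    have hall : ∀ y, |g₂ y - g₁ y| ≤ 4 * δ + 4 * (κ * (1 + w)) := by
      intro y
      have h5 := UniE_lip (S := S) hw a2 b2 hZ hz y
      have h6 : 2 * (w * κ) ≤ 2 * (κ * (1 + w)) := by nlinarith
      linarith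
    have hb1 : Bd h := ⟨1, hh⟩
    have hb2 : Bd g₁ := ⟨1, a1⟩
    have hb3 : Bd g₂ := ⟨1, b1⟩
    have e1 : S.L t (fun y => h y - g₁ y) =
        S.L t (fun y => h y - g₂ y) + S.L t (fun y => g₂ y - g₁ y) := by
      rw [S.sub_r hb1 hb2, S.sub_r hb1 hb3, S.sub_r hb3 hb2]
      ring
    rw [e1]
    have hM0 : 0 ≤ 4 * δ + 4 * (κ * (1 + w)) := by
      have : 0 ≤ κ * (1 + w) := mul_nonneg hκ0.le h1w
      linarith
    have h5 := S.bd t (fun y => g₂ y - g₁ y) (4 * δ + 4 * (κ * (1 + w))) hM0 hall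
    have h6 : S.q * ‖t‖ ≤ S.q * r := mul_le_mul_of_nonneg_left (hrG t ht) hq
    have h7 : S.q * ‖t‖ * (4 * δ + 4 * (κ * (1 + w))) ≤ S.q * r * (4 * δ + 4 * (κ * (1 + w))) :=
      mul_le_mul_of_nonneg_right h6 hM0
    have h9 := b4 t ht
    have h10 := abs_add_le (S.L t (fun y => h y - g₂ y)) (S.L t (fun y => g₂ y - g₁ y))
    have h11 : (C₂ + 4 * (S.q * r)) * δ ≤ max C₁ (C₂ + 4 * (S.q * r)) * δ :=
      mul_le_mul_of_nonneg_right (le_max_right _ _) hδ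
    have h12 : (κ + 4 * (S.q * r) * κ) * (1 + w) ≤ ε * (1 + w) := by
      refine mul_le_mul_of_nonneg_right ?_ h1w
      nlinarith
    nlinarith

end Pool.Agent.H84.TE
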